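import Pool.Agent.Q192.FL.Defs

/-!
The spanning numbers of the flow.
-/

namespace Pool.Agent.Q192.FL

open Set Topology

/-- The scales. -/
def hs (k : ℕ) : ℕ := 4 ^ (k + 1)

theorem hs_pos (k : ℕ) : 0 < hs k := by unfold hs; positivity

theorem hs_lt {j k : ℕ} (h : j < k) : 4 * hs j ≤ hs k := by
  have h1 : hs (j + 1) ≤ hs k := by
    unfold hs; exact Nat.pow_le_pow_right (by norm_num) (by omega)
  have e : hs (j + 1) = 4 * hs j := by unfold hs; ring
  omega

theorem hs_mono {j k : ℕ} (h : j ≤ k) : hs j ≤ hs k := by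
  unfold hs; exact Nat.pow_le_pow_right (by norm_num) (by omega)

theorem lt_hs (k : ℕ) : k + 1 < hs k := Nat.lt_pow_self (by norm_num)

/-- Sequences without the marker. -/
def X4 : Set XX := {u | ∀ i : ℤ, u i ≠ 4}

theorem isClosed_X4 : IsClosed X4 := by
  have e : X4 = ⋂ i : ℤ, (fun u : XX => u i) ⁻¹' {a | a ≠ 4} := by
    ext u
    simp only [X4, mem_ofPred_eq, mem_iInter, mem_preimage]
  rw [e]
  exact isClosed_iInter fun i => (isClosed_discrete _).preimage (continuous_apply i)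

theorem shf_mem_X4 {u : XX} (h : u ∈ X4) (n : ℤ) : shf n u ∈ X4 := fun _ => h _

/-- Special position `e` in an excursion of level `k`. -/
def Spec (k e : ℕ) (u : XX) (p : T2) : Prop :=
  (FF ^ (-(e : ℤ) - 1)) p ∈ NN 4 ∧ (FF ^ (2 * (hs k : ℤ) - e)) p ∈ NN 4 ∧
    (∀ i ∈ Finset.Ico (-(e : ℤ)) (2 * hs k - e), (FF ^ i) p ∈ ⋃ a ∈ {a : ZMod 5 | a ≠ 4}, NN a) ∧
    (∀ i ∈ Finset.Ico (-(e : ℤ)) (hs k - e), (FF ^ i) p ∈ NN (u i))

/-- Compatible pairs. -/
def Cp (u : XX) (p : T2) : Prop :=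
  p ∈ NN (u 0) ∨ ∃ k e : ℕ, hs k ≤ e ∧ e < 2 * hs k ∧ Spec k e u p

theorem isOpen_sym (i : ℤ) : IsOpen {q : XX × T2 | (FF ^ i) q.2 ∈ NN (q.1 i)} := by
  have e : {q : XX × T2 | (FF ^ i) q.2 ∈ NN (q.1 i)} =
      ⋃ a : ZMod 5, ((fun q : XX × T2 => q.1 i) ⁻¹' {a}) ∩
        ((fun q : XX × T2 => (FF ^ i) q.2) ⁻¹' NN a) := by
    ext q
    simp only [mem_ofPred_eq, mem_iUnion, mem_inter_iff, mem_preimage, mem_singleton_iff]
    constructor
    · intro h
      exact ⟨_, rfl, h⟩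
    · rintro ⟨a, h1, h2⟩
      rw [h1]; exact h2
  rw [e]
  apply isOpen_iUnion
  intro a
  apply IsOpen.inter
  · exact (isOpen_discrete _).preimage (by fun_prop)
  · exact (isOpen_NN a).preimage ((continuous_FF_zpow i).comp continuous_snd)

theorem isOpen_Spec (k e : ℕ) : IsOpen {q : XX × T2 | Spec k e q.1 q.2} := by
  unfold Spec
  have hz : ∀ i : ℤ, Continuous fun q : XX × T2 => (FF ^ i) q.2 := fun i =>
    (continuous_FF_zpow i).comp continuous_snd
  apply IsOpen.and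
  · exact (isOpen_NN 4).preimage (hz _)
  apply IsOpen.and
  · exact (isOpen_NN 4).preimage (hz _)
  apply IsOpen.and
  · have e1 : {q : XX × T2 | ∀ i ∈ Finset.Ico (-(e : ℤ)) (2 * hs k - e),
        (FF ^ i) q.2 ∈ ⋃ a ∈ {a : ZMod 5 | a ≠ 4}, NN a} =
        ⋂ i ∈ Finset.Ico (-(e : ℤ)) (2 * hs k - e),
          (fun q : XX × T2 => (FF ^ i) q.2) ⁻¹' ⋃ a ∈ {a : ZMod 5 | a ≠ 4}, NN a := by
      ext q
      simp only [mem_ofPred_eq, mem_iInter, mem_preimage]
    rw [e1]
    apply isOpen_biInter_finset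
    intro i _
    exact (isOpen_biUnion fun a _ => isOpen_NN a).preimage (hz i)
  · have e1 : {q : XX × T2 | ∀ i ∈ Finset.Ico (-(e : ℤ)) (hs k - e),
        (FF ^ i) q.2 ∈ NN (q.1 i)} = ⋂ i ∈ Finset.Ico (-(e : ℤ)) (hs k - e),
          {q : XX × T2 | (FF ^ i) q.2 ∈ NN (q.1 i)} := by
      ext q
      simp only [mem_ofPred_eq, mem_iInter]
    rw [e1]
    exact isOpen_biInter_finset fun i _ => isOpen_sym i

theorem isOpen_Cp : IsOpen {q : XX × T2 | Cp q.1 q.2} := by
  have e : {q : XX × T2 | Cp q.1 q.2} = {q : XX × T2 | (FF ^ (0 : ℤ)) q.2 ∈ NN (q.1 0)} ∪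
      ⋃ k : ℕ, ⋃ e : ℕ, ⋃ _ : hs k ≤ e ∧ e < 2 * hs k, {q : XX × T2 | Spec k e q.1 q.2} := by
    ext q
    simp only [Cp, mem_ofPred_eq, mem_union, mem_iUnion, zpow_zero, Equiv.Perm.one_apply,
      exists_prop, and_assoc]
  rw [e]
  apply (isOpen_sym 0).union
  exact isOpen_iUnion fun k => isOpen_iUnion fun e => isOpen_iUnion fun _ => isOpen_Spec k e

/-- The arc of phases. -/
def JJ : Set Circle := ee '' Ioo (-(1 / 4)) (1 / 4)

theorem isOpen_JJ : IsOpen JJ := isOpenMap_ee _ isOpen_Ioo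

theorem ee_half_notMem : ee (1 / 2) ∉ JJ := by
  rintro ⟨s, hs, h⟩
  obtain ⟨n, hn⟩ := ee_eq h
  have h1 : (-1 : ℝ) < n := by linarith [hs.1]
  have h2 : (n : ℝ) < 0 := by linarith [hs.2]
  have h3 : (-1 : ℤ) < n := by exact_mod_cast h1
  have h4 : n < 0 := by exact_mod_cast h2
  omega

def VV : Set (XX × T3) := {q | q.2.2 ∈ JJ ∧ Cp q.1 q.2.1}

theorem isOpen_VV : IsOpen VV := by
  have h1 : Continuous fun q : XX × T3 => q.2.2 := by fun_prop
  have h2 : Continuous fun q : XX × T3 => (q.1, q.2.1) := by fun_prop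
  exact (isOpen_JJ.preimage h1).inter (isOpen_Cp.preimage h2)

/-- The relation on the 3-torus. -/
def R2 : Set (T3 × T3) :=
  (fun q : XX × T3 => (((pp q.1, 1) : T3), q.2)) '' (VVᶜ ∩ Prod.fst ⁻¹' X4)

theorem isClosed_R2 : IsClosed R2 := by
  apply IsCompact.isClosed
  apply IsCompact.image
  · exact (isOpen_VV.isClosed_compl.inter (isClosed_X4.preimage continuous_fst)).isCompact
  · have h1 : Continuous fun q : XX × T3 => pp q.1 := continuous_pp.comp continuous_fst
    exact (h1.prodMk continuous_const).prodMk continuous_snd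

theorem mem_R2 {x y : T3} : (x, y) ∈ R2 ↔ ∃ u ∈ X4, x = (pp u, 1) ∧ ¬ (y.2 ∈ JJ ∧ Cp u y.1) := by
  constructor
  · rintro ⟨⟨u, f⟩, ⟨h1, h2⟩, h3⟩
    simp only [Prod.mk.injEq] at h3
    obtain ⟨h4, rfl⟩ := h3
    exact ⟨u, h2, h4.symm, h1⟩
  · rintro ⟨u, hu, rfl, h⟩
    exact ⟨(u, y), ⟨h, hu⟩, rfl⟩

theorem R2_ne {p : T3 × T3} (h : p ∈ R2) : p.1 ≠ p.2 := by
  obtain ⟨x, y⟩ := p
  rw [mem_R2] at h
  obtain ⟨u, hu, rfl, h⟩ := h
  intro he
  have he' : ((pp u, 1) : T3) = y := he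
  subst he'
  apply h
  refine ⟨⟨0, by norm_num, ee_zero⟩, Or.inl (pp_mem_NN u)⟩

theorem R2_nonempty : R2.Nonempty := by
  refine ⟨((pp (fun _ => 0), 1), (1, ee (1 / 2))), ?_⟩
  rw [mem_R2]
  exact ⟨fun _ => 0, fun _ => (by decide : (0 : ZMod 5) ≠ 4), rfl, fun h => ee_half_notMem h.1⟩

/-- Compatibility for the whole time interval. -/
def Cover (T : ℝ) (y x : T3) : Prop :=
  ∀ t ∈ Icc 0 T, (phi t y, phi t x) ∉ R2 ∧ (phi t x, phi t y) ∉ R2

/-! The words. -/

def f4 (a : Fin 4) : ZMod 5 := ((a : ℕ) : ZMod 5)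

theorem f4_inj : Function.Injective f4 := by decide
theorem f4_ne : ∀ a, f4 a ≠ 4 := by decide
theorem f4_surj : ∀ b : ZMod 5, b ≠ 4 → ∃ a, f4 a = b := by decide

/-- The special sequence with word `a`. -/
def sp (h : ℕ) (a : Fin h → Fin 4) : XX := fun i =>
  if i = -1 then 4 else if i = 2 * h then 4
  else if hi : 0 ≤ i ∧ i < h then f4 (a ⟨i.toNat, by omega⟩) else 0

theorem sp_neg_one (h : ℕ) (a : Fin h → Fin 4) : sp h a (-1) = 4 := by simp [sp]

theorem sp_end {h : ℕ} (a : Fin h → Fin 4) : sp h a (2 * h) = 4 := by simp [sp]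

theorem sp_in {h : ℕ} (a : Fin h → Fin 4) {i : ℤ} (h0 : 0 ≤ i) (h1 : i < h) :
    sp h a i = f4 (a ⟨i.toNat, by omega⟩) := by
  unfold sp
  rw [if_neg (by omega), if_neg (by omega), dif_pos ⟨h0, h1⟩]

theorem sp_ne {h : ℕ} (a : Fin h → Fin 4) {i : ℤ} (h0 : 0 ≤ i) (h1 : i < 2 * h) :
    sp h a i ≠ 4 := by
  by_cases hi : i < h
  · rw [sp_in a h0 hi]; exact f4_ne _
  · unfold sp
    rw [if_neg (by omega), if_neg (by omega), dif_neg (by omega)]
    decide

/-- The spanning points. -/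
noncomputable def yp (h : ℕ) (a : Fin h → Fin 4) (j : Fin 4) : T3 :=
  phi (-((2 * (j : ℕ) + 1 : ℝ) / 8)) (pp (sp h a), 1)

/-- The orbits of the spanning points avoid the section of the horseshoe. -/
theorem yp_avoid (h : ℕ) (a : Fin h → Fin 4) (j : Fin 4) (t : ℝ) {u : XX} (hu : u ∈ X4) :
    phi t (yp h a j) ≠ (pp u, 1) := by
  intro he
  unfold yp at he
  rw [← phi_add] at he
  have h1 : ee (t + -((2 * (j : ℕ) + 1 : ℝ) / 8)) = 1 := by
    have := congrArg Prod.snd he
    rw [phi_snd, one_mul] at this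
    exact this
  obtain ⟨n, hn⟩ := ee_eq_one h1
  rw [hn, phi_int, FF_zpow_pp] at he
  have h2 : shf n (sp h a) = u := pp_injective (congrArg Prod.fst he)
  have h3 := hu (-1 - n)
  rw [← h2] at h3
  apply h3
  rw [shf_apply]
  have : -1 - n + n = -1 := by ring
  rw [this, sp_neg_one]

theorem exists_phase {r : ℝ} (h0 : 0 ≤ r) (h1 : r < 1) :
    ∃ j : Fin 4, |r - (2 * (j : ℕ) + 1 : ℝ) / 8| ≤ 1 / 8 := by
  by_cases c1 : r < 1 / 4
  · exact ⟨0, by rw [abs_le]; constructor <;> norm_num <;> linarith⟩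
  by_cases c2 : r < 1 / 2
  · exact ⟨1, by rw [abs_le]; constructor <;> norm_num <;> linarith⟩
  by_cases c3 : r < 3 / 4
  · exact ⟨2, by rw [abs_le]; constructor <;> norm_num <;> linarith⟩
  · exact ⟨3, by rw [abs_le]; constructor <;> norm_num <;> linarith⟩

theorem Cp_special {k : ℕ} {u : XX} {a : Fin (hs k) → Fin 4}
    (ha : ∀ i : Fin (hs k), f4 (a i) = u (i : ℕ)) {n : ℕ} (hn : n < 2 * hs k) :
    Cp (shf n u) (pp (shf n (sp (hs k) a))) := by
  have hin : ∀ i : ℤ, 0 ≤ i → i < hs k → sp (hs k) a i = u i := by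
    intro i h0 h1
    rw [sp_in a h0 h1, ha]
    congr 1
    simp only [Int.toNat_of_nonneg h0]
  by_cases c : n < hs k
  · left
    have h1 : shf n u 0 = shf n (sp (hs k) a) 0 := by
      rw [shf_apply, shf_apply, zero_add]
      exact (hin n (by omega) (by omega)).symm
    rw [h1]
    exact pp_mem_NN _
  · right
    refine ⟨k, n, by omega, hn, ?_⟩
    have key : ∀ i : ℤ, (FF ^ i) (pp (shf n (sp (hs k) a))) ∈ NN (sp (hs k) a (i + n)) := by
      intro i
      rw [FF_zpow_pp, shf_shf]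
      have := pp_mem_NN (shf (i + n) (sp (hs k) a))
      rwa [shf_apply, zero_add] at this
    refine ⟨?_, ?_, ?_, ?_⟩
    · have h1 := key (-(n : ℤ) - 1)
      have e : -(n : ℤ) - 1 + n = -1 := by ring
      rwa [e, sp_neg_one] at h1
    · have h1 := key (2 * (hs k : ℤ) - n)
      have e : 2 * (hs k : ℤ) - n + n = 2 * hs k := by ring
      rwa [e, sp_end] at h1
    · intro i hi
      rw [Finset.mem_Ico] at hi
      rw [mem_iUnion₂]
      exact ⟨_, sp_ne a (by omega) (by omega), key i⟩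
    · intro i hi
      rw [Finset.mem_Ico] at hi
      rw [shf_apply, ← hin (i + n) (by omega) (by omega)]
      exact key i

/-- **Upper bound.** -/
theorem cover_upper (k : ℕ) {T : ℝ} (hT : T ≤ 2 * hs k - 1) :
    ∃ E : Finset T3, E.card ≤ 4 ^ (hs k + 1) ∧ ∀ x, ∃ y ∈ E, Cover T y x := by
  classical
  refine ⟨Finset.univ.image fun q : (Fin (hs k) → Fin 4) × Fin 4 => yp (hs k) q.1 q.2, ?_, ?_⟩
  · refine Finset.card_image_le.trans ?_
    rw [Finset.card_univ, Fintype.card_prod, Fintype.card_fun, Fintype.card_fin,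
      Fintype.card_fin, pow_succ]
  · intro x
    by_cases hx : ∃ t : ℝ, ∃ u ∈ X4, phi t x = (pp u, 1)
    · obtain ⟨t0, u0, hu0, h0⟩ := hx
      set r : ℝ := Int.fract t0 with hr
      have hr0 : 0 ≤ r := Int.fract_nonneg _
      have hr1 : r < 1 := Int.fract_lt_one _
      have ht0 : t0 = r + (⌊t0⌋ : ℝ) := by rw [hr]; exact (Int.fract_add_floor t0).symm
      -- the first return
      obtain ⟨u, hu, hxr⟩ : ∃ u ∈ X4, phi r x = (pp u, 1) := by
        refine ⟨shf (-⌊t0⌋) u0, shf_mem_X4 hu0 _, ?_⟩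
        have e : r = ((-⌊t0⌋ : ℤ) : ℝ) + t0 := by push_cast; linarith
        rw [e, phi_add, h0, phi_int, FF_zpow_pp]
      have hch : ∀ i : Fin (hs k), ∃ b : Fin 4, f4 b = u ((i : ℕ) : ℤ) := fun i =>
        f4_surj _ (hu _)
      choose a ha using hch
      obtain ⟨j, hj⟩ := exists_phase hr0 hr1
      refine ⟨yp (hs k) a j, Finset.mem_image_of_mem _ (Finset.mem_univ (a, j)), ?_⟩
      intro t ht
      refine ⟨fun hR => ?_, fun hR => ?_⟩
      · rw [mem_R2] at hR
        obtain ⟨v, hv, h1, -⟩ := hR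
        exact yp_avoid _ _ _ _ hv h1
      · rw [mem_R2] at hR
        obtain ⟨v, hv, h1, h2⟩ := hR
        have e1 : t = (t - r) + r := by ring
        have h3 := h1
        rw [e1, phi_add, hxr] at h3
        have h4 : ee (t - r) = 1 := by
          have := congrArg Prod.snd h3
          rw [phi_snd, one_mul] at this
          exact this
        obtain ⟨n, hn⟩ := ee_eq_one h4
        rw [hn, phi_int, FF_zpow_pp] at h3
        have h5 : shf n u = v := pp_injective (congrArg Prod.fst h3)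
        have hn0 : 0 ≤ n := by
          have : (-1 : ℝ) < n := by linarith [ht.1]
          have : (-1 : ℤ) < n := by exact_mod_cast this
          omega
        obtain ⟨m, rfl⟩ := Int.eq_ofNat_of_zero_le hn0
        have hm : m < 2 * hs k := by
          have h6 : (m : ℝ) < 2 * hs k := by
            push_cast at hn
            linarith [ht.2]
          exact_mod_cast h6
        apply h2
        have h7 : phi t (yp (hs k) a j) = (pp (shf m (sp (hs k) a)),
            ee (r - (2 * (j : ℕ) + 1 : ℝ) / 8)) := by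
          unfold yp
          rw [← phi_add]
          have e2 : t + -((2 * (j : ℕ) + 1 : ℝ) / 8) =
              (r - (2 * (j : ℕ) + 1 : ℝ) / 8) + ((m : ℤ) : ℝ) := by
            linarith
          rw [e2, phi_add, phi_int, FF_zpow_pp]
          rw [abs_le] at hj
          exact phi_small (by linarith [hj.1]) (by linarith [hj.2]) _
        rw [h7]
        refine ⟨?_, ?_⟩
        · rw [abs_le] at hj
          exact ⟨_, ⟨by linarith [hj.1], by linarith [hj.2]⟩, rfl⟩
        · rw [← h5]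
          exact Cp_special ha hm
    · push Not at hx
      refine ⟨yp (hs k) (fun _ => 0) 0, Finset.mem_image_of_mem _
        (Finset.mem_univ ((fun _ => 0), 0)), ?_⟩
      intro t ht
      refine ⟨fun hR => ?_, fun hR => ?_⟩
      · rw [mem_R2] at hR
        obtain ⟨v, hv, h1, -⟩ := hR
        exact yp_avoid _ _ _ _ hv h1
      · rw [mem_R2] at hR
        obtain ⟨v, hv, h1, -⟩ := hR
        exact hx t v hv h1

/-! Lower bound. -/

/-- The periodic sequence with word `a`. -/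
def per {m : ℕ} (hm : 0 < m) (a : Fin m → Fin 4) : XX := fun i =>
  f4 (a ⟨(i % m).toNat, by
    have h1 := Int.emod_lt_of_pos i (show (0 : ℤ) < m by omega)
    have h2 := Int.emod_nonneg i (show (m : ℤ) ≠ 0 by omega)
    omega⟩)

theorem per_mem {m : ℕ} (hm : 0 < m) (a : Fin m → Fin 4) : per hm a ∈ X4 := fun _ => f4_ne _

theorem per_eq {m : ℕ} (hm : 0 < m) (a b : Fin m → Fin 4) (s : ℤ)
    (h : ∀ i, s ≤ i → i < s + m → per hm a i = per hm b i) : a = b := by
  funext j
  -- the representative of `j` in the window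
  set i : ℤ := s + ((j : ℕ) - s) % m with hi
  have h1 := Int.emod_lt_of_pos ((j : ℕ) - s) (show (0 : ℤ) < m by omega)
  have h2 := Int.emod_nonneg ((j : ℕ) - s : ℤ) (show (m : ℤ) ≠ 0 by omega)
  have h3 := h i (by omega) (by omega)
  have h4 : i % m = (j : ℕ) := by
    have e : i = (j : ℕ) - m * (((j : ℕ) - s) / m) := by
      have := Int.emod_add_mul_ediv ((j : ℕ) - s : ℤ) m
      rw [hi]
      linarith
    rw [e, Int.sub_mul_emod_self_left]
    exact Int.emod_eq_of_lt (by omega) (by have := j.2; omega)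
  have h5 : (⟨(i % m).toNat, by rw [h4]; simp⟩ : Fin m) = j := by
    apply Fin.ext
    simp only [h4, Int.toNat_natCast]
  have h6 := f4_inj h3
  rw [h5] at h6
  exact h6

/-- The data of an excursion. -/
theorem spec_data {k m : ℕ} {q : T2} {u : XX} (hm : m = hs k) (hu : u ∈ X4)
    (hc : ∀ n : ℕ, n < m → Cp (shf n u) ((FF ^ (n : ℤ)) q)) {n : ℕ} (hn : n < m)
    (hns : ¬ (FF ^ (n : ℤ)) q ∈ NN (u n)) :
    ∃ s : ℤ, s ≤ 0 ∧ (FF ^ (s - 1)) q ∈ NN 4 ∧
      (∀ i, s ≤ i → i < 0 → ∃ a, a ≠ 4 ∧ (FF ^ i) q ∈ NN a) ∧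
      (∀ i, s ≤ i → i < s + m → (FF ^ i) q ∈ NN (u i)) := by
  have hsym : ∀ n : ℕ, n < m → ∃ a, a ≠ 4 ∧ (FF ^ (n : ℤ)) q ∈ NN a := by
    intro n hn
    rcases hc n hn with h | ⟨k', e, h1, h2, h3⟩
    · exact ⟨_, hu _, h⟩
    · have h4 := h3.2.2.1 0 (by rw [Finset.mem_Ico]; omega)
      rw [mem_iUnion₂] at h4
      obtain ⟨a, ha, h5⟩ := h4
      rw [zpow_zero, Equiv.Perm.one_apply] at h5
      exact ⟨a, ha, h5⟩
  rcases hc n hn with h | ⟨k', e, h1, h2, h3⟩
  · rw [shf_apply, zero_add] at h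
    exact (hns h).elim
  · obtain ⟨ha, hb, hc', hd⟩ := h3
    have hz : ∀ i : ℤ, (FF ^ i) ((FF ^ (n : ℤ)) q) = (FF ^ (i + n)) q := by
      intro i
      rw [← Equiv.Perm.mul_apply, ← zpow_add]
    rw [hz] at ha hb
    set s : ℤ := n - e with hs'
    have ea : -(e : ℤ) - 1 + n = s - 1 := by rw [hs']; ring
    have eb : 2 * (hs k' : ℤ) - e + n = s + 2 * hs k' := by rw [hs']; ring
    rw [ea] at ha
    rw [eb] at hb
    have hs0 : s ≤ 0 := by
      by_contra hc2
      push Not at hc2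
      obtain ⟨a, ha1, ha2⟩ := hsym (s - 1).toNat (by omega)
      have e1 : ((s - 1).toNat : ℤ) = s - 1 := by omega
      rw [e1] at ha2
      exact ha1 (NN_inj ha2 ha)
    have hs1 : (m : ℤ) ≤ s + 2 * hs k' := by
      by_contra hc2
      push Not at hc2
      obtain ⟨a, ha1, ha2⟩ := hsym (s + 2 * hs k').toNat (by omega)
      have e1 : ((s + 2 * hs k').toNat : ℤ) = s + 2 * hs k' := by omega
      rw [e1] at ha2
      exact ha1 (NN_inj ha2 hb)
    have hkk : k ≤ k' := by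
      by_contra hc2
      push Not at hc2
      have := hs_lt hc2
      omega
    have hmk : m ≤ hs k' := by rw [hm]; exact hs_mono hkk
    refine ⟨s, hs0, ha, ?_, ?_⟩
    · intro i hi1 hi2
      have h4 := hc' (i - n) (by rw [Finset.mem_Ico]; omega)
      rw [mem_iUnion₂, hz] at h4
      obtain ⟨a, ha, h5⟩ := h4
      have e1 : i - n + n = i := by ring
      rw [e1] at h5
      exact ⟨a, ha, h5⟩
    · intro i hi1 hi2
      have h4 := hd (i - n) (by rw [Finset.mem_Ico]; omega)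
      rw [hz, shf_apply] at h4
      have e1 : i - n + n = i := by ring
      rwa [e1] at h4

/-- **Lower bound.** -/
theorem cover_lower (k : ℕ) {T : ℝ} (hT : (hs k : ℝ) ≤ T + 1) {E : Finset T3}
    (hE : ∀ x, ∃ y ∈ E, Cover T y x) : 4 ^ hs k ≤ 2 * E.card := by
  classical
  set m := hs k with hm
  have hm0 : 0 < m := hs_pos k
  have h1 : ∀ a : Fin m → Fin 4, ∃ y ∈ E, Cover T y (pp (per hm0 a), 1) := fun a => hE _
  choose f hf hcov using h1
  -- the compatibility along the orbit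
  have hcp : ∀ a : Fin m → Fin 4, ∀ n : ℕ, n < m →
      Cp (shf n (per hm0 a)) ((FF ^ (n : ℤ)) (f a).1) := by
    intro a n hn
    have hmem : ((n : ℤ) : ℝ) ∈ Icc 0 T := by
      refine ⟨by positivity, ?_⟩
      have : (n : ℝ) + 1 ≤ m := by exact_mod_cast hn
      push_cast
      linarith
    have h2 := (hcov a _ hmem).2
    rw [mem_R2] at h2
    push Not at h2
    have h3 := h2 (shf n (per hm0 a)) (shf_mem_X4 (per_mem hm0 a) _) (by
      rw [phi_int, FF_zpow_pp])
    -- the phase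
    have h4 : (f a).2 ∈ JJ := by
      have := h3.1
      rwa [phi_snd, ee_int, mul_one] at this
    obtain ⟨s, hs', hs2⟩ := h4
    have h5 : f a = phi s ((f a).1, 1) := by
      rw [phi_small hs'.1 hs'.2.le, hs2]
    have h6 : (phi ((n : ℤ) : ℝ) (f a)).1 = (FF ^ (n : ℤ)) (f a).1 := by
      conv_lhs => rw [h5]
      rw [← phi_add, add_comm, phi_add, phi_int, phi_small hs'.1 hs'.2.le]
    rw [← h6]
    exact h3.2
  have key : (Finset.univ : Finset (Fin m → Fin 4)).card ≤ 2 * E.card := by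
    apply Finset.card_le_mul_card_image_of_maps_to (f := f) (fun a _ => hf a)
    intro y hy
    -- the two classes
    set S := Finset.univ.filter fun a : Fin m → Fin 4 => f a = y with hS
    have hA : (S.filter fun a => ∀ n : ℕ, n < m → (FF ^ (n : ℤ)) y.1 ∈ NN (per hm0 a n)).card
        ≤ 1 := by
      rw [Finset.card_le_one]
      intro a ha b hb
      rw [Finset.mem_filter] at ha hb
      apply per_eq hm0 a b 0
      intro i hi0 hi1
      have e1 := ha.2 i.toNat (by omega)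
      have e2 := hb.2 i.toNat (by omega)
      have e3 : (i.toNat : ℤ) = i := by omega
      rw [e3] at e1 e2
      exact NN_inj e1 e2
    have hB : (S.filter fun a => ¬ ∀ n : ℕ, n < m → (FF ^ (n : ℤ)) y.1 ∈
        NN (per hm0 a n)).card ≤ 1 := by
      rw [Finset.card_le_one]
      intro a ha b hb
      rw [Finset.mem_filter, hS, Finset.mem_filter] at ha hb
      obtain ⟨⟨-, ha1⟩, ha2⟩ := ha
      obtain ⟨⟨-, hb1⟩, hb2⟩ := hb
      push Not at ha2 hb2
      obtain ⟨n, hn, hna⟩ := ha2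
      obtain ⟨n', hn', hnb⟩ := hb2
      obtain ⟨s, hs0, hs1, hs2, hs3⟩ := spec_data hm (per_mem hm0 a)
        (fun n hn => by rw [← ha1]; exact hcp a n hn) hn hna
      obtain ⟨s', hs0', hs1', hs2', hs3'⟩ := spec_data hm (per_mem hm0 b)
        (fun n hn => by rw [← hb1]; exact hcp b n hn) hn' hnb
      have hss : s = s' := by
        rcases lt_trichotomy s s' with hlt | heq | hlt
        · obtain ⟨c, hc1, hc2⟩ := hs2 (s' - 1) (by omega) (by omega)
          exact (hc1 (NN_inj hc2 hs1')).elim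
        · exact heq
        · obtain ⟨c, hc1, hc2⟩ := hs2' (s - 1) (by omega) (by omega)
          exact (hc1 (NN_inj hc2 hs1)).elim
      subst hss
      apply per_eq hm0 a b s
      intro i hi0 hi1
      exact NN_inj (hs3 i hi0 hi1) (hs3' i hi0 hi1)
    have := Finset.card_filter_add_card_filter_not (s := S)
      (fun a => ∀ n : ℕ, n < m → (FF ^ (n : ℤ)) y.1 ∈ NN (per hm0 a n))
    omega
  rwa [Finset.card_univ, Fintype.card_fun, Fintype.card_fin, Fintype.card_fin] at key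

/-- **The spanning numbers of the flow `phi` do not have an exponential growth rate.** -/
theorem span_main : ∃ D : T3 → T3 → ℝ, IsCompatibleMetric D ∧
    (∀ T : ℝ, 0 ≤ T → ∃ E : Finset T3, IsSpanSet (bowen phi D T) 1 E) ∧
    Filter.liminf (fun T : ℝ => ((Real.log (spanNum (bowen phi D T) 1) / T : ℝ) : EReal))
      Filter.atTop ≤ ((0.8 : ℝ) : EReal) ∧
    ((1.2 : ℝ) : EReal) ≤
      Filter.limsup (fun T : ℝ => ((Real.log (spanNum (bowen phi D T) 1) / T : ℝ) : EReal))
        Filter.atTop := by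
  obtain ⟨D, hD, -, hcont, hrel⟩ := exists_metric R2 isClosed_R2 R2_nonempty (fun p => R2_ne)
  have hlt : ∀ T : ℝ, 0 ≤ T → ∀ y x : T3, bowen phi D T y x < 1 ↔ Cover T y x := by
    intro T hT y x
    rw [← not_le, one_le_bowen_iff hcont hT]
    push Not
    unfold Cover
    constructor
    · intro h t ht
      have h1 := h t ht
      rw [← not_le, hrel, not_or] at h1
      exact h1
    · intro h t ht
      rw [← not_le, hrel, not_or]
      exact h t ht
  have hset : ∀ T : ℝ, 0 ≤ T → ∀ E : Finset T3, IsSpanSet (bowen phi D T) 1 E ↔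
      ∀ x, ∃ y ∈ E, Cover T y x := by
    intro T hT E
    unfold IsSpanSet
    constructor
    · intro h x
      obtain ⟨y, hy, h1⟩ := h x
      exact ⟨y, hy, (hlt T hT y x).1 h1⟩
    · intro h x
      obtain ⟨y, hy, h1⟩ := h x
      exact ⟨y, hy, (hlt T hT y x).2 h1⟩
  have hex : ∀ T : ℝ, 0 ≤ T → ∃ E : Finset T3, IsSpanSet (bowen phi D T) 1 E := by
    intro T hT
    obtain ⟨k, hk⟩ := exists_nat_ge T
    have h1 : T ≤ 2 * (hs k : ℝ) - 1 := by
      have : ((k + 1 : ℕ) : ℝ) < hs k := by exact_mod_cast lt_hs k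
      push_cast at this
      linarith
    obtain ⟨E, -, hE⟩ := cover_upper k h1
    exact ⟨E, (hset T hT E).2 hE⟩
  have hlow : ∀ (T : ℝ) (k : ℕ), 0 ≤ T → (hs k : ℝ) ≤ T + 1 →
      4 ^ hs k ≤ 2 * spanNum (bowen phi D T) 1 := by
    intro T k hT hk
    have hne : {n : ℕ | ∃ E : Finset T3, IsSpanSet (bowen phi D T) 1 E ∧ E.card = n}.Nonempty := by
      obtain ⟨E, hE⟩ := hex T hT
      exact ⟨_, E, hE, rfl⟩
    obtain ⟨E, hE, hc⟩ := Nat.sInf_mem hne
    unfold spanNum
    rw [← hc]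
    exact cover_lower k hk ((hset T hT E).1 hE)
  have hpos : ∀ T : ℝ, 0 ≤ T → 1 ≤ spanNum (bowen phi D T) 1 := by
    intro T hT
    have hne : {n : ℕ | ∃ E : Finset T3, IsSpanSet (bowen phi D T) 1 E ∧ E.card = n}.Nonempty := by
      obtain ⟨E, hE⟩ := hex T hT
      exact ⟨_, E, hE, rfl⟩
    obtain ⟨E, hE, hc⟩ := Nat.sInf_mem hne
    unfold spanNum
    rw [← hc]
    obtain ⟨y, hy, -⟩ := hE (1, 1)
    exact Finset.card_pos.2 ⟨y, hy⟩
  have hl2 := Real.log_two_lt_d9
  have hl2' := Real.log_two_gt_d9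
  have hl4 : Real.log 4 = 2 * Real.log 2 := by
    have : (4 : ℝ) = 2 ^ 2 := by norm_num
    rw [this, Real.log_pow]; norm_num
  refine ⟨D, hD, hex, ?_, ?_⟩
  · apply Filter.liminf_le_of_frequently_le'
    rw [Filter.frequently_atTop]
    intro a
    obtain ⟨k, hk⟩ : ∃ k : ℕ, a ≤ k ∧ 1 ≤ k := by
      obtain ⟨k, hk⟩ := exists_nat_ge a
      exact ⟨k + 1, by push_cast; linarith, by omega⟩
    have hM1 : (k : ℝ) + 1 ≤ hs k := by exact_mod_cast (lt_hs k).le
    have hM2 : (16 : ℝ) ≤ hs k := by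
      have : hs 1 ≤ hs k := hs_mono hk.2
      have h1 : hs 1 = 16 := by unfold hs; norm_num
      rw [h1] at this
      exact_mod_cast this
    refine ⟨2 * (hs k : ℝ) - 1, by linarith [hk.1], ?_⟩
    rw [EReal.coe_le_coe_iff]
    have hT : (0 : ℝ) ≤ 2 * (hs k : ℝ) - 1 := by linarith
    obtain ⟨E, hE1, hE2⟩ := cover_upper k (le_refl (2 * (hs k : ℝ) - 1))
    have h1 : spanNum (bowen phi D (2 * (hs k : ℝ) - 1)) 1 ≤ 4 ^ (hs k + 1) := by
      refine le_trans (Nat.sInf_le ?_) hE1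
      exact ⟨E, (hset _ hT E).2 hE2, rfl⟩
    have h2 := hpos _ hT
    rw [div_le_iff₀ (by linarith)]
    calc Real.log (spanNum (bowen phi D (2 * (hs k : ℝ) - 1)) 1)
        ≤ Real.log ((4 : ℝ) ^ (hs k + 1)) := by
          apply Real.log_le_log
          · exact_mod_cast h2
          · exact_mod_cast h1
      _ = (hs k + 1) * (2 * Real.log 2) := by rw [Real.log_pow, hl4]; push_cast; ring
      _ ≤ (hs k + 1) * (2 * 0.6931471808) := by gcongr
      _ ≤ 0.8 * (2 * (hs k : ℝ) - 1) := by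
          norm_num
          linarith
  · apply Filter.le_limsup_of_frequently_le'
    rw [Filter.frequently_atTop]
    intro a
    obtain ⟨k, hk⟩ : ∃ k : ℕ, a ≤ k ∧ 1 ≤ k := by
      obtain ⟨k, hk⟩ := exists_nat_ge a
      exact ⟨k + 1, by push_cast; linarith, by omega⟩
    have hM1 : (k : ℝ) + 1 ≤ hs k := by exact_mod_cast (lt_hs k).le
    have hM2 : (16 : ℝ) ≤ hs k := by
      have : hs 1 ≤ hs k := hs_mono hk.2
      have h1 : hs 1 = 16 := by unfold hs; norm_num
      rw [h1] at this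
      exact_mod_cast this
    refine ⟨(hs k : ℝ), by linarith [hk.1], ?_⟩
    rw [EReal.coe_le_coe_iff]
    have hT : (0 : ℝ) ≤ (hs k : ℝ) := by linarith
    have h1 := hlow _ k hT (by linarith)
    have h2 := hpos _ hT
    have h3 : ((4 : ℝ) ^ hs k) / 2 ≤ spanNum (bowen phi D (hs k : ℝ)) 1 := by
      have : ((4 : ℝ) ^ hs k) ≤ 2 * (spanNum (bowen phi D (hs k : ℝ)) 1 : ℝ) := by
        exact_mod_cast h1
      linarith
    rw [le_div_iff₀ (by linarith)]
    calc 1.2 * (hs k : ℝ) ≤ hs k * (2 * 0.6931471803) - 0.6931471808 := by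
          norm_num
          linarith
      _ ≤ hs k * (2 * Real.log 2) - Real.log 2 := by gcongr
      _ = Real.log ((4 : ℝ) ^ hs k / 2) := by
          rw [Real.log_div (by positivity) (by norm_num), Real.log_pow, hl4]
      _ ≤ Real.log (spanNum (bowen phi D (hs k : ℝ)) 1) := by
          apply Real.log_le_log (by positivity) h3

end Pool.Agent.Q192.FL
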