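import Pool.Agent.Q192.FL.Code

/-!
The closed relation on the shift space, and the growth of its separated sets.
-/

namespace Pool.Agent.Q192.FL

open Set Topology

def adj (d a b : ZMod 5) : Prop := a - b = d ∨ a - b = -d

instance (d a b : ZMod 5) : Decidable (adj d a b) := by unfold adj; infer_instance

theorem clique_card : ∀ d : ZMod 5, d = 1 ∨ d = 2 → ∀ V : Finset (ZMod 5),
    (∀ a ∈ V, ∀ b ∈ V, a ≠ b → adj d a b) → V.card ≤ 2 := by decide +kernel

theorem adj_irrefl : ∀ d : ZMod 5, d = 1 ∨ d = 2 → ∀ a : ZMod 5, ¬ adj d a a := by decide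

theorem adj_double : ∀ a b : ZMod 5, adj 2 a b → adj 1 (2 * a) (2 * b) := by decide

theorem adj_symm : ∀ d a b : ZMod 5, adj d a b → adj d b a := by decide

theorem adj_or : ∀ a b : ZMod 5, a ≠ b → adj 1 a b ∨ adj 2 a b := by decide

theorem tree (d : ZMod 5) (hd : d = 1 ∨ d = 2) (m : ℕ) : ∀ (p : ℤ) (C : Finset XX),
    (∀ x ∈ C, ∀ y ∈ C, x ≠ y → ∃ τ : ℤ, p ≤ τ ∧ τ < p + m ∧ (∀ i < τ, x i = y i) ∧
      adj d (x τ) (y τ)) → C.card ≤ 2 ^ m := by
  induction m with
  | zero =>
    intro p C h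
    rw [pow_zero, Finset.card_le_one]
    intro x hx y hy
    by_contra hne
    obtain ⟨τ, h1, h2, -⟩ := h x hx y hy hne
    push_cast at h2
    omega
  | succ m ih =>
    intro p C h
    have hV : (C.image (fun x => x p)).card ≤ 2 := by
      apply clique_card d hd
      intro a ha b hb hab
      rw [Finset.mem_image] at ha hb
      obtain ⟨x, hx, rfl⟩ := ha
      obtain ⟨y, hy, rfl⟩ := hb
      obtain ⟨τ, h1, h2, h3, h4⟩ := h x hx y hy (fun e => hab (by rw [e]))
      have : τ = p := by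
        by_contra hne
        exact hab (h3 p (by omega))
      rwa [this] at h4
    have hC : C.card ≤ 2 ^ m * (C.image (fun x => x p)).card := by
      apply Finset.card_le_mul_card_image
      intro a _
      apply ih (p + 1)
      intro x hx y hy hxy
      rw [Finset.mem_filter] at hx hy
      obtain ⟨τ, h1, h2, h3, h4⟩ := h x hx.1 y hy.1 hxy
      have : τ ≠ p := by
        rintro rfl
        rw [hx.2, hy.2] at h4
        exact adj_irrefl d hd _ h4
      refine ⟨τ, by omega, ?_, h3, h4⟩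
      push_cast at h2
      linarith
    calc C.card ≤ 2 ^ m * (C.image (fun x => x p)).card := hC
      _ ≤ 2 ^ m * 2 := by gcongr
      _ = 2 ^ (m + 1) := (pow_succ 2 m).symm

noncomputable instance instDecXX : DecidableEq XX := Classical.decEq _

/-- The scales. -/
def MM (k : ℕ) : ℕ := 16 ^ (k + 1)

theorem MM_pos (k : ℕ) : 0 < MM k := by unfold MM; positivity

theorem MM_mono {j k : ℕ} (h : j ≤ k) : MM j ≤ MM k := by
  unfold MM; exact Nat.pow_le_pow_right (by norm_num) (by omega)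

theorem MM_lt {j k : ℕ} (h : j < k) : 16 * MM j ≤ MM k := by
  have : MM (j + 1) ≤ MM k := MM_mono h
  have e : MM (j + 1) = 16 * MM j := by unfold MM; ring
  omega

theorem le_MM (k : ℕ) : k ≤ MM k := by
  unfold MM
  have : k + 1 < 16 ^ (k + 1) := Nat.lt_pow_self (by norm_num)
  omega

/-- The special words. -/
def enc (N : ℕ) (a : ℕ → ZMod 5) : XX := fun i =>
  if i = -1 then 1
  else if 0 ≤ i ∧ i < 4 * N then a i.toNat
  else if 5 * N ≤ i ∧ i < 9 * N then 2 * a (i - 5 * N).toNat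
  else 0

def ext0 {n : ℕ} (a : Fin n → ZMod 5) (i : ℕ) : ZMod 5 := if h : i < n then a ⟨i, h⟩ else 0

noncomputable def EE (N : ℕ) : Finset XX := Finset.univ.image (fun a : Fin (4 * N) → ZMod 5 => enc N (ext0 a))

structure IsE (N : ℕ) (x : XX) : Prop where
  mark : x (-1) = 1
  left : ∀ i, i < -1 → x i = 0
  gap : ∀ i, 4 * (N : ℤ) ≤ i → i < 5 * N → x i = 0
  right : ∀ i, 9 * (N : ℤ) ≤ i → x i = 0
  double : ∀ i, 0 ≤ i → i < 4 * (N : ℤ) → x (5 * N + i) = 2 * x i

theorem isE_of_mem {N : ℕ} {x : XX} (h : x ∈ EE N) : IsE N x := by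
  unfold EE at h
  rw [Finset.mem_image] at h
  obtain ⟨a, -, rfl⟩ := h
  refine ⟨?_, ?_, ?_, ?_, ?_⟩
  · simp [enc]
  · intro i hi
    unfold enc
    rw [if_neg (by omega), if_neg (by omega), if_neg (by omega)]
  · intro i hi hi2
    unfold enc
    rw [if_neg (by omega), if_neg (by omega), if_neg (by omega)]
  · intro i hi
    unfold enc
    rw [if_neg (by omega), if_neg (by omega), if_neg (by omega)]
  · intro i hi hi2
    unfold enc
    rw [if_neg (by omega), if_neg (by omega), if_pos (by omega), if_neg (by omega),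
      if_pos (by omega)]
    congr 2
    omega

theorem IsE.ext {N : ℕ} {x y : XX} (hx : IsE N x) (hy : IsE N y)
    (h : ∀ i, 0 ≤ i → i < 4 * (N : ℤ) → x i = y i) : x = y := by
  funext i
  by_cases h1 : i < -1
  · rw [hx.left i h1, hy.left i h1]
  by_cases h2 : i = -1
  · rw [h2, hx.mark, hy.mark]
  by_cases h3 : i < 4 * (N : ℤ)
  · exact h i (by omega) h3
  by_cases h4 : i < 5 * (N : ℤ)
  · rw [hx.gap i (by omega) h4, hy.gap i (by omega) h4]
  by_cases h5 : i < 9 * (N : ℤ)
  · have e1 := hx.double (i - 5 * N) (by omega) (by omega)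
    have e2 := hy.double (i - 5 * N) (by omega) (by omega)
    have e3 : 5 * (N : ℤ) + (i - 5 * N) = i := by ring
    rw [e3] at e1 e2
    rw [e1, e2, h (i - 5 * N) (by omega) (by omega)]
  · rw [hx.right i (by omega), hy.right i (by omega)]

theorem card_EE_le (N : ℕ) : (EE N).card ≤ 5 ^ (4 * N) := by
  unfold EE
  refine Finset.card_image_le.trans ?_
  rw [Finset.card_univ, Fintype.card_fun, Fintype.card_fin, ZMod.card]

theorem card_EE (N : ℕ) : (EE N).card = 5 ^ (4 * N) := by
  unfold EE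
  rw [Finset.card_image_of_injective, Finset.card_univ, Fintype.card_fun, Fintype.card_fin,
    ZMod.card]
  intro a b hab
  funext i
  have h := congrFun hab (i : ℤ)
  simp only [enc] at h
  have hi := i.2
  rw [if_neg (by omega), if_pos (by omega), if_neg (by omega), if_pos (by omega)] at h
  simpa [ext0] using h

/-- The limit relation. -/
def Rinf : Set (XX × XX) := {p | (∀ i < 0, p.1 i = p.2 i) ∧ adj 1 (p.1 0) (p.2 0)}

/-- The relation of level `k`. -/
def Rlev (k : ℕ) : Set (XX × XX) :=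
  {p | ∃ x ∈ EE (MM k), ∃ y ∈ EE (MM k), ∃ t : ℤ, 0 ≤ t ∧ t < 4 * MM k ∧
    (∀ i < t, x i = y i) ∧ adj 2 (x t) (y t) ∧
      p = (shf (5 * MM k + t) x, shf (5 * MM k + t) y)}

def RR : Set (XX × XX) := Rinf ∪ ⋃ k, Rlev k

def WW (K : ℕ) : Set (XX × XX) :=
  {p | (∀ i, -(K : ℤ) ≤ i → i < 0 → p.1 i = p.2 i) ∧ adj 1 (p.1 0) (p.2 0)}

theorem finite_Rlev (k : ℕ) : (Rlev k).Finite := by
  have hf : ((((EE (MM k)) ×ˢ (EE (MM k))) ×ˢ (Finset.Ico (0 : ℤ) (4 * MM k))).image
      (fun q : (XX × XX) × ℤ => (shf (5 * MM k + q.2) q.1.1, shf (5 * MM k + q.2) q.1.2)) :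
        Set (XX × XX)).Finite := Finset.finite_toSet _
  refine hf.subset ?_
  rintro p ⟨x, hx, y, hy, t, h0, h1, -, -, rfl⟩
  rw [Finset.mem_coe, Finset.mem_image]
  refine ⟨((x, y), t), ?_, rfl⟩
  simp only [Finset.mem_product, Finset.mem_Ico]
  exact ⟨⟨hx, hy⟩, h0, h1⟩

theorem isClosed_WW (K : ℕ) : IsClosed (WW K) := by
  have e : WW K = (⋂ i : ℤ, {p : XX × XX | -(K : ℤ) ≤ i → i < 0 → p.1 i = p.2 i}) ∩
      (fun p : XX × XX => (p.1 0, p.2 0)) ⁻¹' {q : ZMod 5 × ZMod 5 | adj 1 q.1 q.2} := by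
    ext p
    simp only [WW, mem_ofPred_eq, mem_inter_iff, mem_iInter, mem_preimage]
  rw [e]
  apply IsClosed.inter
  · apply isClosed_iInter
    intro i
    by_cases h : -(K : ℤ) ≤ i ∧ i < 0
    · have : {p : XX × XX | -(K : ℤ) ≤ i → i < 0 → p.1 i = p.2 i} =
          {p : XX × XX | p.1 i = p.2 i} := by
        ext p
        simp only [mem_ofPred_eq]
        tauto
      rw [this]
      exact isClosed_eq (by fun_prop) (by fun_prop)
    · have : {p : XX × XX | -(K : ℤ) ≤ i → i < 0 → p.1 i = p.2 i} = univ := by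
        ext p
        simp only [mem_ofPred_eq, mem_univ, iff_true]
        tauto
      rw [this]
      exact isClosed_univ
  · exact (isClosed_discrete _).preimage (by fun_prop)

theorem Rlev_subset {k K : ℕ} (h : K ≤ MM k) : Rlev k ⊆ WW K := by
  rintro p ⟨x, hx, y, hy, t, h0, h1, h2, h3, rfl⟩
  have ex := isE_of_mem hx
  have ey := isE_of_mem hy
  refine ⟨fun i hi hi2 => ?_, ?_⟩
  · simp only [shf_apply]
    by_cases hc : 0 ≤ i + t
    · have e : i + (5 * (MM k : ℤ) + t) = 5 * MM k + (i + t) := by ring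
      rw [e, ex.double _ hc (by omega), ey.double _ hc (by omega), h2 (i + t) (by omega)]
    · rw [ex.gap _ (by omega) (by omega), ey.gap _ (by omega) (by omega)]
  · simp only [shf_apply, zero_add]
    rw [ex.double _ h0 h1, ey.double _ h0 h1]
    exact adj_double _ _ h3

theorem RR_eq : RR = ⋂ K : ℕ, ((⋃ k ∈ Finset.range K, Rlev k) ∪ WW K) := by
  ext p
  constructor
  · rintro (h | h)
    · rw [mem_iInter]
      intro K
      right
      exact ⟨fun i _ hi => h.1 i hi, h.2⟩
    · rw [mem_iUnion] at h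
      obtain ⟨k, hk⟩ := h
      rw [mem_iInter]
      intro K
      by_cases hkK : k < K
      · left
        rw [mem_iUnion₂]
        exact ⟨k, Finset.mem_range.2 hkK, hk⟩
      · right
        exact Rlev_subset ((not_lt.1 hkK).trans (le_MM k)) hk
  · intro h
    by_cases hc : p ∈ ⋃ k, Rlev k
    · exact Or.inr hc
    · left
      rw [mem_iInter] at h
      have h' : ∀ K : ℕ, p ∈ WW K := by
        intro K
        rcases h K with h1 | h1
        · rw [mem_iUnion₂] at h1
          obtain ⟨k, -, hk⟩ := h1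
          exact (hc (mem_iUnion.2 ⟨k, hk⟩)).elim
        · exact h1
      refine ⟨fun i hi => ?_, (h' 0).2⟩
      exact (h' i.natAbs).1 i (by omega) hi

theorem isClosed_RR : IsClosed RR := by
  rw [RR_eq]
  apply isClosed_iInter
  intro K
  apply IsClosed.union
  · exact (Finset.finite_toSet _).isClosed_biUnion fun k _ => (finite_Rlev k).isClosed
  · exact isClosed_WW K

theorem RR_adj {p : XX × XX} (h : p ∈ RR) : adj 1 (p.1 0) (p.2 0) := by
  rw [RR_eq, mem_iInter] at h
  rcases h 0 with h1 | h1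
  · simp at h1
  · exact h1.2

/-- Separation along the shift, with the relation. -/
def Sepd (m : ℕ) (C : Finset XX) : Prop :=
  ∀ x ∈ C, ∀ y ∈ C, x ≠ y → ∃ e : ℕ, e < m ∧ (shf e x, shf e y) ∈ RR

theorem Sepd.mono {m n : ℕ} {C : Finset XX} (h : Sepd m C) (hmn : m ≤ n) : Sepd n C := by
  intro x hx y hy hxy
  obtain ⟨e, he, h1⟩ := h x hx y hy hxy
  exact ⟨e, he.trans_le hmn, h1⟩

theorem exists_first {x y : XX} {a b : ℤ} (h : ∃ i, a ≤ i ∧ i < b ∧ x i ≠ y i) :
    ∃ t, a ≤ t ∧ t < b ∧ x t ≠ y t ∧ ∀ i, a ≤ i → i < t → x i = y i := by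
  obtain ⟨i, hi, hib, hne⟩ := h
  have hP : ∃ n : ℕ, x (a + n) ≠ y (a + n) := ⟨(i - a).toNat, by
    have : a + ((i - a).toNat : ℤ) = i := by omega
    rwa [this]⟩
  classical
  have hs := Nat.find_spec hP
  have hm := fun k => Nat.find_min hP (m := k)
  have hle : Nat.find hP ≤ (i - a).toNat := by
    apply Nat.find_min'
    have : a + ((i - a).toNat : ℤ) = i := by omega
    rwa [this]
  refine ⟨a + Nat.find hP, by omega, by omega, hs, fun k hk hk2 => ?_⟩
  have := hm (k - a).toNat (by omega)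
  have e : a + ((k - a).toNat : ℤ) = k := by omega
  rw [e] at this
  exact not_not.1 this

/-- **Lower bound.** -/
theorem sepd_EE (k : ℕ) : Sepd (9 * MM k) (EE (MM k)) := by
  intro x hx y hy hxy
  have ex := isE_of_mem hx
  have ey := isE_of_mem hy
  have hd : ∃ i, 0 ≤ i ∧ i < 4 * (MM k : ℤ) ∧ x i ≠ y i := by
    by_contra hc
    push Not at hc
    exact hxy (ex.ext ey hc)
  obtain ⟨t, h0, h1, h2, h3⟩ := exists_first hd
  have h4 : ∀ i < t, x i = y i := by
    intro i hi
    by_cases c1 : 0 ≤ i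
    · exact h3 i c1 hi
    by_cases c2 : i = -1
    · rw [c2, ex.mark, ey.mark]
    · rw [ex.left i (by omega), ey.left i (by omega)]
  rcases adj_or _ _ h2 with h | h
  · refine ⟨t.toNat, by omega, Or.inl ⟨fun i hi => ?_, ?_⟩⟩
    · simp only [shf_apply]
      exact h4 _ (by omega)
    · simp only [shf_apply]
      have : (0 : ℤ) + (t.toNat : ℤ) = t := by omega
      rwa [this]
  · refine ⟨(5 * MM k + t).toNat, by omega, Or.inr (mem_iUnion.2 ⟨k, x, hx, y, hy, t, h0, h1,
      h4, h, ?_⟩)⟩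
    have : ((5 * (MM k : ℤ) + t).toNat : ℤ) = 5 * MM k + t := by omega
    rw [this]

/-- The special words of low level. -/
noncomputable def BB (k m : ℕ) : Finset XX :=
  (Finset.range k).biUnion fun j =>
    (Finset.Ico (-(m : ℤ)) (9 * MM j)).biUnion fun s => (EE (MM j)).image (shf s)

theorem mem_BB {k m j : ℕ} {s : ℤ} {x : XX} (hj : j < k) (h1 : -(m : ℤ) ≤ s)
    (h2 : s < 9 * MM j) (hx : x ∈ EE (MM j)) : shf s x ∈ BB k m := by
  unfold BB
  simp only [Finset.mem_biUnion, Finset.mem_range, Finset.mem_Ico, Finset.mem_image]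
  exact ⟨j, hj, s, ⟨h1, h2⟩, x, hx, rfl⟩

theorem card_BB (k : ℕ) : (BB k (MM k)).card ≤ 2 ^ MM k := by
  rcases Nat.eq_zero_or_pos k with rfl | hk
  · simp [BB]
  obtain ⟨K, rfl⟩ : ∃ K, k = K + 1 := ⟨k - 1, by omega⟩
  set N := MM K with hN
  have hM : MM (K + 1) = 16 * N := by rw [hN]; unfold MM; ring
  have h1 : (BB (K + 1) (MM (K + 1))).card ≤ (K + 1) * ((32 * N) * 2 ^ (10 * N)) := by
    unfold BB
    refine Finset.card_biUnion_le.trans ?_
    have : ∀ j ∈ Finset.range (K + 1), ((Finset.Ico (-(MM (K + 1) : ℤ)) (9 * MM j)).biUnion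
        fun s => (EE (MM j)).image (shf s)).card ≤ (32 * N) * 2 ^ (10 * N) := by
      intro j hj
      rw [Finset.mem_range] at hj
      have hjN : MM j ≤ N := MM_mono (by omega)
      refine Finset.card_biUnion_le.trans ?_
      have h2 : ∀ s ∈ Finset.Ico (-(MM (K + 1) : ℤ)) (9 * MM j),
          ((EE (MM j)).image (shf s)).card ≤ 2 ^ (10 * N) := by
        intro s _
        refine Finset.card_image_le.trans ((card_EE_le _).trans ?_)
        calc 5 ^ (4 * MM j) = (5 ^ 4) ^ MM j := by rw [pow_mul]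
          _ ≤ (2 ^ 10) ^ MM j := Nat.pow_le_pow_left (by norm_num) _
          _ ≤ (2 ^ 10) ^ N := Nat.pow_le_pow_right (by norm_num) hjN
          _ = 2 ^ (10 * N) := by rw [pow_mul]
      refine (Finset.sum_le_card_nsmul _ _ _ h2).trans ?_
      rw [Int.card_Ico, smul_eq_mul]
      gcongr
      omega
    refine (Finset.sum_le_card_nsmul _ _ _ this).trans ?_
    rw [Finset.card_range, smul_eq_mul]
  have h2 : K + 1 ≤ N := by
    have := le_MM K
    have h3 : K + 1 < 16 ^ (K + 1) := Nat.lt_pow_self (by norm_num)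
    rw [hN]; unfold MM; omega
  have hN2 : N ≤ 2 ^ N := Nat.lt_two_pow_self.le
  have hN16 : 16 ≤ N := by
    rw [hN]; unfold MM
    calc 16 = 16 ^ 1 := by norm_num
      _ ≤ 16 ^ (K + 1) := Nat.pow_le_pow_right (by norm_num) (by omega)
  calc (BB (K + 1) (MM (K + 1))).card ≤ (K + 1) * ((32 * N) * 2 ^ (10 * N)) := h1
    _ ≤ 2 ^ N * ((2 ^ 5 * 2 ^ N) * 2 ^ (10 * N)) := by
        gcongr
        · omega
        · norm_num
    _ = 2 ^ (5 + 12 * N) := by rw [← pow_add, ← pow_add, ← pow_add]; congr 1; ring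
    _ ≤ 2 ^ MM (K + 1) := by
        rw [hM]
        exact Nat.pow_le_pow_right (by norm_num) (by omega)

theorem marker {N N' : ℕ} {x x' : XX} {s s' : ℤ} (hx : IsE N x) (hx' : IsE N' x')
    (h : shf s x = shf s' x') : s = s' := by
  by_contra hne
  rcases lt_or_gt_of_ne hne with hlt | hlt
  · have h1 := congrFun h (-1 - s')
    simp only [shf_apply] at h1
    have e : -1 - s' + s' = -1 := by ring
    rw [e, hx'.mark, hx.left _ (by omega)] at h1
    exact absurd h1 (by decide)
  · have h1 := congrFun h (-1 - s)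
    simp only [shf_apply] at h1
    have e : -1 - s + s = -1 := by ring
    rw [e, hx.mark, hx'.left _ (by omega)] at h1
    exact absurd h1 (by decide)

/-- Pairs of the second type. -/
structure Typ (m : ℕ) (j : ℕ) (s : ℤ) (x y : XX) : Prop where
  ex : ∃ x' ∈ EE (MM j), ∃ y' ∈ EE (MM j), x = shf s x' ∧ y = shf s y' ∧
    ∃ t : ℤ, 0 ≤ t ∧ t < 4 * MM j ∧ (∀ i < t, x' i = y' i) ∧ adj 2 (x' t) (y' t) ∧
      s ≤ 5 * MM j + t ∧ 5 * MM j + t < s + m

theorem pair_cases {m : ℕ} {x y : XX} {e : ℕ} (he : e < m) (h : (shf e x, shf e y) ∈ RR) :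
    (∃ τ : ℤ, 0 ≤ τ ∧ τ < m ∧ (∀ i < τ, x i = y i) ∧ adj 1 (x τ) (y τ)) ∨
      ∃ j s, Typ m j s x y := by
  rcases h with h | h
  · left
    refine ⟨e, by omega, by omega, fun i hi => ?_, ?_⟩
    · have := h.1 (i - e) (by omega)
      simpa using this
    · simpa using h.2
  · right
    rw [mem_iUnion] at h
    obtain ⟨j, x', hx', y', hy', t, h0, h1, h2, h3, h4⟩ := h
    rw [Prod.mk.injEq] at h4
    refine ⟨j, 5 * MM j + t - e, ⟨x', hx', y', hy', ?_, ?_, t, h0, h1, h2, h3, by omega,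
      by omega⟩⟩
    · have := congrArg (shf (-(e : ℤ))) h4.1
      rw [shf_shf, shf_shf, neg_add_cancel, shf_zero] at this
      rw [this]
      congr 1
      ring
    · have := congrArg (shf (-(e : ℤ))) h4.2
      rw [shf_shf, shf_shf, neg_add_cancel, shf_zero] at this
      rw [this]
      congr 1
      ring

/-- **Upper bound.** -/
theorem sepd_card {k : ℕ} {C : Finset XX} (h : Sepd (MM k) C) : C.card ≤ 2 ^ (MM k + 1) := by
  classical
  set m := MM k with hm
  set C' := C \ BB k m with hC'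
  have hcard : C.card ≤ C'.card + (BB k m).card := by
    have := Finset.card_le_card_sdiff_add_card (s := C) (t := BB k m)
    exact this
  have hpair : ∀ x ∈ C', ∀ y ∈ C', x ≠ y →
      (∃ τ : ℤ, 0 ≤ τ ∧ τ < m ∧ (∀ i < τ, x i = y i) ∧ adj 1 (x τ) (y τ)) ∨
        ∃ j s, k ≤ j ∧ Typ m j s x y := by
    intro x hx y hy hxy
    rw [hC', Finset.mem_sdiff] at hx hy
    obtain ⟨e, he, h1⟩ := h x hx.1 y hy.1 hxy
    rcases pair_cases he h1 with h2 | ⟨j, s, h2⟩
    · exact Or.inl h2
    · right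
      refine ⟨j, s, ?_, h2⟩
      by_contra hjk
      push Not at hjk
      obtain ⟨x', hx', y', hy', hxx, hyy, t, h0, h1, h3, h4, h5, h6⟩ := h2.ex
      apply hx.2
      rw [hxx]
      exact mem_BB hjk (by omega) (by omega) hx'
  have hmain : C'.card ≤ 2 ^ m := by
    by_cases hT : ∃ x ∈ C', ∃ y ∈ C', x ≠ y ∧ ∃ j s, k ≤ j ∧ Typ m j s x y
    · obtain ⟨x0, hx0, y0, hy0, hne0, j, s, hkj, h0⟩ := hT
      have hmj : m ≤ MM j := MM_mono hkj
      obtain ⟨a0, ha0, b0, hb0, hxa, hyb, t0, ht0, ht1, ht2, ht3, ht4, ht5⟩ := h0.ex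
      have hs1 : 4 * (MM j : ℤ) < s := by omega
      have hs2 : s < 9 * (MM j : ℤ) := by omega
      have hdiff0 : x0 (t0 - s) ≠ y0 (t0 - s) := by
        rw [hxa, hyb]
        simp only [shf_apply, sub_add_cancel]
        intro hh
        rw [hh] at ht3
        exact adj_irrefl 2 (Or.inr rfl) _ ht3
      -- uniqueness of the level and the shift
      have huniq : ∀ j' s' (a b : XX), k ≤ j' → Typ m j' s' a b →
          (∃ c ∈ EE (MM j), a = shf s c ∨ b = shf s c) → s' = s ∧ j' = j := by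
        intro j' s' a b hkj' hT ⟨c, hc, hac⟩
        have hmj' : m ≤ MM j' := MM_mono hkj'
        obtain ⟨a1, ha1, b1, hb1, haa, hbb, t1, hu0, hu1, hu2, hu3, hu4, hu5⟩ := hT.ex
        have hs : s' = s := by
          rcases hac with hac | hac
          · exact marker (isE_of_mem ha1) (isE_of_mem hc) (haa.symm.trans hac)
          · exact marker (isE_of_mem hb1) (isE_of_mem hc) (hbb.symm.trans hac)
        refine ⟨hs, ?_⟩
        rcases lt_trichotomy j' j with hlt | heq | hlt
        · have := MM_lt hlt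
          omega
        · exact heq
        · have := MM_lt hlt
          omega
      -- all elements belong to the same shifted level set
      have hall : ∀ z ∈ C', ∃ c ∈ EE (MM j), z = shf s c := by
        intro z hz
        have aux : ∀ w ∈ C', (∃ c ∈ EE (MM j), w = shf s c) → z (t0 - s) ≠ w (t0 - s) →
            ∃ c ∈ EE (MM j), z = shf s c := by
          intro w hw hwc hzw
          have hne : z ≠ w := fun e => hzw (by rw [e])
          rcases hpair z hz w hw hne with ⟨τ, hτ0, hτ1, hτ2, hτ3⟩ | ⟨j', s', hkj', hT⟩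
          · exact (hzw (hτ2 _ (by omega))).elim
          · obtain ⟨c, hc, hwc'⟩ := hwc
            obtain ⟨e1, e2⟩ := huniq j' s' z w hkj' hT ⟨c, hc, Or.inr hwc'⟩
            obtain ⟨a1, ha1, b1, hb1, haa, -⟩ := hT.ex
            rw [e2] at ha1
            rw [e1] at haa
            exact ⟨a1, ha1, haa⟩
        by_cases hzx : z (t0 - s) = x0 (t0 - s)
        · exact aux y0 hy0 ⟨b0, hb0, hyb⟩ (by rw [hzx]; exact hdiff0)
        · exact aux x0 hx0 ⟨a0, ha0, hxa⟩ hzx
      apply tree 2 (Or.inr rfl) m (-(5 * MM j))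
      intro x hx y hy hxy
      obtain ⟨a, ha, hxa'⟩ := hall x hx
      obtain ⟨b, hb, hyb'⟩ := hall y hy
      have hab : ∃ i, 0 ≤ i ∧ i < 4 * (MM j : ℤ) ∧ a i ≠ b i := by
        by_contra hc
        push Not at hc
        apply hxy
        rw [hxa', hyb', (isE_of_mem ha).ext (isE_of_mem hb) hc]
      obtain ⟨i, hi0, hi1, hi2⟩ := hab
      have hneg : x (i - s) ≠ y (i - s) := by
        rw [hxa', hyb']
        simpa only [shf_apply, sub_add_cancel] using hi2
      rcases hpair x hx y hy hxy with ⟨τ, hτ0, hτ1, hτ2, hτ3⟩ | ⟨j', s', hkj', hT⟩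
      · exact (hneg (hτ2 _ (by omega))).elim
      · obtain ⟨e1, e2⟩ := huniq j' s' x y hkj' hT ⟨a, ha, Or.inl hxa'⟩
        obtain ⟨a1, ha1, b1, hb1, haa, hbb, t1, hu0, hu1, hu2, hu3, hu4, hu5⟩ := hT.ex
        rw [e2] at hu1 hu4 hu5
        rw [e1] at haa hbb hu4 hu5
        refine ⟨t1 - s, by omega, by omega, fun i hi => ?_, ?_⟩
        · rw [haa, hbb]
          exact hu2 _ (by omega)
        · rw [haa, hbb]
          simpa only [shf_apply, sub_add_cancel] using hu3
    · push Not at hT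
      apply tree 1 (Or.inl rfl) m 0
      intro x hx y hy hxy
      rcases hpair x hx y hy hxy with ⟨τ, hτ0, hτ1, hτ2, hτ3⟩ | ⟨j', s', hkj', hT'⟩
      · exact ⟨τ, hτ0, by omega, hτ2, hτ3⟩
      · exact (hT x hx y hy hxy j' s' hkj' hT').elim
  calc C.card ≤ C'.card + (BB k m).card := hcard
    _ ≤ 2 ^ m + 2 ^ m := add_le_add hmain (card_BB k)
    _ = 2 ^ (m + 1) := by ring

end Pool.Agent.Q192.FL
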