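import Pool.Agent.Q192.FL.Defs
import Pool.Agent.Q192.FL.Sym

/-!
The separation numbers of the flow.
-/

namespace Pool.Agent.Q192.FL

open Set Topology

/-- The relation on the 3-torus. -/
def R1 : Set (T3 × T3) := (fun p : XX × XX => ((pp p.1, (1 : Circle)), (pp p.2, (1 : Circle)))) '' RR

theorem isClosed_R1 : IsClosed R1 := by
  apply IsCompact.isClosed
  apply isClosed_RR.isCompact.image
  have h1 : Continuous fun p : XX × XX => pp p.1 := continuous_pp.comp continuous_fst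
  have h2 : Continuous fun p : XX × XX => pp p.2 := continuous_pp.comp continuous_snd
  exact (h1.prodMk continuous_const).prodMk (h2.prodMk continuous_const)

theorem R1_ne {p : T3 × T3} (h : p ∈ R1) : p.1 ≠ p.2 := by
  obtain ⟨⟨u, v⟩, huv, rfl⟩ := h
  intro he
  simp only [Prod.mk.injEq, and_true] at he
  have h1 : u = v := pp_injective he
  have h2 := RR_adj huv
  simp only [h1] at h2
  exact adj_irrefl 1 (Or.inl rfl) _ h2

theorem R1_nonempty : R1.Nonempty := by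
  refine ⟨_, (fun i => if i = 0 then 1 else 0, fun _ => 0), Or.inl ⟨fun i hi => ?_, ?_⟩, rfl⟩
  · simp only
    rw [if_neg hi.ne]
  · change adj 1 (if (0 : ℤ) = 0 then 1 else 0) 0
    rw [if_pos rfl]
    decide

theorem mem_R1 {p q : T2} {ζ η : Circle} (h : ((p, ζ), (q, η)) ∈ R1) :
    ζ = 1 ∧ η = 1 ∧ ∃ u v : XX, p = pp u ∧ q = pp v ∧ (u, v) ∈ RR := by
  obtain ⟨⟨u, v⟩, huv, h1⟩ := h
  simp only [Prod.mk.injEq] at h1
  exact ⟨h1.1.2.symm, h1.2.2.symm, u, v, h1.1.1.symm, h1.2.1.symm, huv⟩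

theorem RR_symm {u v : XX} (h : (u, v) ∈ RR) : (v, u) ∈ RR := by
  rcases h with h | h
  · exact Or.inl ⟨fun i hi => (h.1 i hi).symm, adj_symm _ _ _ h.2⟩
  · rw [mem_iUnion] at h
    obtain ⟨k, x, hx, y, hy, t, h0, h1, h2, h3, h4⟩ := h
    rw [Prod.mk.injEq] at h4
    refine Or.inr (mem_iUnion.2 ⟨k, y, hy, x, hx, t, h0, h1, fun i hi => (h2 i hi).symm,
      adj_symm _ _ _ h3, ?_⟩)
    rw [h4.1, h4.2]

/-- From the flow to the shift. -/
theorem flow_to_shift {T : ℝ} {E : Finset T3}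
    (h : ∀ x ∈ E, ∀ y ∈ E, x ≠ y → ∃ t ∈ Icc 0 T, (phi t x, phi t y) ∈ R1) :
    ∃ C : Finset XX, C.card = E.card ∧ Sepd (⌊T⌋₊ + 1) C := by
  classical
  by_cases hE : E.card ≤ 1
  · rcases Nat.le_one_iff_eq_zero_or_eq_one.1 hE with h0 | h1
    · exact ⟨∅, by simp [h0], by intro x hx; simp at hx⟩
    · refine ⟨{0}, by simp [h1], ?_⟩
      intro x hx y hy hxy
      rw [Finset.mem_singleton] at hx hy
      exact (hxy (hx.trans hy.symm)).elim
  push Not at hE
  obtain ⟨x0, hx0, y0, hy0, hne0⟩ := Finset.one_lt_card.1 hE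
  -- common third coordinate
  obtain ⟨s, hs⟩ := ee_surj (x0.2)⁻¹
  set r : ℝ := Int.fract s with hr
  have hr0 : 0 ≤ r := Int.fract_nonneg s
  have hr1 : r < 1 := Int.fract_lt_one s
  have her : ee r = (x0.2)⁻¹ := by
    have : s = r + ⌊s⌋ := by rw [hr]; exact (Int.fract_add_floor s).symm
    rw [← hs, this, ee_add_int]
  have hthird : ∀ x ∈ E, x.2 * ee r = 1 := by
    intro x hx
    by_cases hxx : x = x0
    · rw [hxx, her, mul_inv_cancel]
    · obtain ⟨t, -, ht⟩ := h x hx x0 hx0 hxx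
      obtain ⟨h1, h2, -⟩ := mem_R1 ht
      have h3 : x.2 * ee t = x0.2 * ee t := by
        rw [← phi_snd, ← phi_snd]
        exact h1.trans h2.symm
      rw [mul_right_cancel h3, her, mul_inv_cancel]
  have hphi : ∀ x ∈ E, phi r x = ((phi r x).1, 1) := by
    intro x hx
    have : (phi r x).2 = 1 := by rw [phi_snd]; exact hthird x hx
    rw [← this]
  have hpair : ∀ x ∈ E, ∀ y ∈ E, x ≠ y → ∃ n : ℕ, n < ⌊T⌋₊ + 1 ∧ ∃ u v : XX,
      (u, v) ∈ RR ∧ (FF ^ (n : ℤ)) (phi r x).1 = pp u ∧ (FF ^ (n : ℤ)) (phi r y).1 = pp v := by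
    intro x hx y hy hxy
    obtain ⟨t, ht, htR⟩ := h x hx y hy hxy
    obtain ⟨h1, h2, u, v, hu, hv, huv⟩ := mem_R1 htR
    have h3 : x.2 * ee t = 1 := by
      rw [← phi_snd]
      exact h1
    have h4 : ee t = ee r := by
      have := h3.trans (hthird x hx).symm
      exact mul_left_cancel this
    obtain ⟨n, hn⟩ := ee_eq h4
    have hn0 : 0 ≤ n := by
      have : (-1 : ℝ) < n := by linarith [ht.1]
      have : (-1 : ℤ) < n := by exact_mod_cast this
      omega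
    obtain ⟨m, rfl⟩ := Int.eq_ofNat_of_zero_le hn0
    have hmT : (m : ℝ) ≤ T := by push_cast at hn; linarith [ht.2]
    have hmT' : m ≤ ⌊T⌋₊ := Nat.le_floor hmT
    have e : t = ((m : ℤ) : ℝ) + r := by rw [hn]; ring
    refine ⟨m, by omega, u, v, huv, ?_, ?_⟩
    · rw [← hu, e, phi_add, hphi x hx, phi_int]
    · rw [← hv, e, phi_add, hphi y hy, phi_int]
  have hcode : ∀ x ∈ E, ∃ w : XX, (phi r x).1 = pp w := by
    intro x hx
    obtain ⟨y, hy, hxy⟩ : ∃ y ∈ E, x ≠ y := by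
      by_cases hxx : x = x0
      · exact ⟨y0, hy0, by rw [hxx]; exact hne0⟩
      · exact ⟨x0, hx0, hxx⟩
    obtain ⟨n, -, u, v, -, hu, -⟩ := hpair x hx y hy hxy
    refine ⟨shf (-n) u, ?_⟩
    rw [← FF_zpow_pp, ← hu, ← Equiv.Perm.mul_apply, ← zpow_add]
    simp
  choose! w hw using hcode
  have hinj : ∀ x ∈ E, ∀ y ∈ E, w x = w y → x = y := by
    intro x hx y hy hxy
    have h1 : phi r x = phi r y := by
      rw [hphi x hx, hphi y hy, hw x hx, hw y hy, hxy]
    have h2 := congrArg (phi (-r)) h1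
    rwa [← phi_add, ← phi_add, neg_add_cancel, phi_zero, phi_zero] at h2
  refine ⟨E.image w, Finset.card_image_of_injOn (fun x hx y hy h => hinj x hx y hy h), ?_⟩
  intro a ha b hb hab
  rw [Finset.mem_image] at ha hb
  obtain ⟨x, hx, rfl⟩ := ha
  obtain ⟨y, hy, rfl⟩ := hb
  obtain ⟨n, hn, u, v, huv, hu, hv⟩ := hpair x hx y hy (fun e => hab (by rw [e]))
  refine ⟨n, hn, ?_⟩
  rw [hw x hx, FF_zpow_pp] at hu
  rw [hw y hy, FF_zpow_pp] at hv
  rw [pp_injective hu, pp_injective hv]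
  exact huv

/-- From the shift to the flow. -/
theorem shift_to_flow {m : ℕ} {C : Finset XX} (h : Sepd m C) {T : ℝ} (hT : (m : ℝ) ≤ T + 1) :
    ∃ E : Finset T3, E.card = C.card ∧
      ∀ x ∈ E, ∀ y ∈ E, x ≠ y → ∃ t ∈ Icc 0 T, (phi t x, phi t y) ∈ R1 := by
  classical
  refine ⟨C.image fun u => (pp u, 1), ?_, ?_⟩
  · apply Finset.card_image_of_injective
    intro u v huv
    simp only [Prod.mk.injEq, and_true] at huv
    exact pp_injective huv
  · intro x hx y hy hxy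
    rw [Finset.mem_image] at hx hy
    obtain ⟨u, hu, rfl⟩ := hx
    obtain ⟨v, hv, rfl⟩ := hy
    obtain ⟨e, he, h1⟩ := h u hu v hv (fun e => hxy (by rw [e]))
    have heT : (e : ℝ) ≤ T := by
      have : (e : ℝ) + 1 ≤ m := by exact_mod_cast he
      linarith
    refine ⟨((e : ℤ) : ℝ), ⟨by positivity, by exact_mod_cast heT⟩, ?_⟩
    rw [phi_int, phi_int, FF_zpow_pp, FF_zpow_pp]
    exact ⟨(shf e u, shf e v), h1, rfl⟩

theorem log_facts : Real.log 2 ≤ 0.6931471808 ∧ 0.71 ≤ 4 / 9 * Real.log 5 := by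
  have h2 := Real.log_two_lt_d9
  have h2' := Real.log_two_gt_d9
  refine ⟨h2.le, ?_⟩
  have h1 : Real.log (625 / 512) = 4 * Real.log 5 - 9 * Real.log 2 := by
    rw [Real.log_div (by norm_num) (by norm_num)]
    have e1 : (625 : ℝ) = 5 ^ 4 := by norm_num
    have e2 : (512 : ℝ) = 2 ^ 9 := by norm_num
    rw [e1, e2, Real.log_pow, Real.log_pow]
    norm_num
  have h3 := Real.one_sub_inv_le_log_of_pos (show (0 : ℝ) < 625 / 512 by norm_num)
  rw [h1] at h3
  norm_num at h3 ⊢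
  linarith

/-- **The separation numbers of the flow `phi` do not have an exponential growth rate.** -/
theorem sep_main : ∃ D : T3 → T3 → ℝ, IsCompatibleMetric D ∧
    (∀ T : ℝ, 0 ≤ T → BddAbove {n : ℕ | ∃ E : Finset T3, IsSepSet (bowen phi D T) 1 E ∧
      E.card = n}) ∧
    Filter.liminf (fun T : ℝ => ((Real.log (sepNum (bowen phi D T) 1) / T : ℝ) : EReal))
      Filter.atTop ≤ ((0.7 : ℝ) : EReal) ∧
    ((0.71 : ℝ) : EReal) ≤
      Filter.limsup (fun T : ℝ => ((Real.log (sepNum (bowen phi D T) 1) / T : ℝ) : EReal))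
        Filter.atTop := by
  obtain ⟨D, hD, -, hcont, hrel⟩ := exists_metric R1 isClosed_R1 R1_nonempty (fun p => R1_ne)
  have hrel' : ∀ x y, 1 ≤ D x y ↔ (x, y) ∈ R1 := by
    intro x y
    rw [hrel]
    constructor
    · rintro (h | h)
      · exact h
      · obtain ⟨⟨u, v⟩, huv, h1⟩ := h
        simp only [Prod.mk.injEq] at h1
        refine ⟨(v, u), RR_symm huv, ?_⟩
        simp only [h1.1, h1.2]
    · exact Or.inl
  have hset : ∀ T : ℝ, 0 ≤ T → ∀ E : Finset T3, IsSepSet (bowen phi D T) 1 E ↔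
      ∀ x ∈ E, ∀ y ∈ E, x ≠ y → ∃ t ∈ Icc 0 T, (phi t x, phi t y) ∈ R1 := by
    intro T hT E
    constructor
    · intro h x hx y hy hxy
      obtain ⟨t, ht, h1⟩ := (one_le_bowen_iff hcont hT x y).1 (h x hx y hy hxy)
      exact ⟨t, ht, (hrel' _ _).1 h1⟩
    · intro h x hx y hy hxy
      obtain ⟨t, ht, h1⟩ := h x hx y hy hxy
      exact (one_le_bowen_iff hcont hT x y).2 ⟨t, ht, (hrel' _ _).2 h1⟩
  have hup : ∀ (T : ℝ) (k : ℕ), 0 ≤ T → ⌊T⌋₊ + 1 ≤ MM k → ∀ n ∈ {n : ℕ | ∃ E : Finset T3,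
      IsSepSet (bowen phi D T) 1 E ∧ E.card = n}, n ≤ 2 ^ (MM k + 1) := by
    rintro T k hT hk n ⟨E, hE, rfl⟩
    obtain ⟨C, hC, hS⟩ := flow_to_shift ((hset T hT E).1 hE)
    rw [← hC]
    exact sepd_card (hS.mono hk)
  have hbdd : ∀ T : ℝ, 0 ≤ T → BddAbove {n : ℕ | ∃ E : Finset T3,
      IsSepSet (bowen phi D T) 1 E ∧ E.card = n} := fun T hT =>
    ⟨_, fun n hn => hup T _ hT (le_MM (⌊T⌋₊ + 1)) n hn⟩
  have hpos : ∀ T : ℝ, 0 ≤ T → 1 ≤ sepNum (bowen phi D T) 1 := by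
    intro T hT
    apply le_csSup (hbdd T hT)
    refine ⟨{(1, 1)}, ?_, rfl⟩
    intro x hx y hy hxy
    rw [Finset.mem_singleton] at hx hy
    exact (hxy (hx.trans hy.symm)).elim
  obtain ⟨hl2, hl5⟩ := log_facts
  refine ⟨D, hD, hbdd, ?_, ?_⟩
  · apply Filter.liminf_le_of_frequently_le'
    rw [Filter.frequently_atTop]
    intro a
    obtain ⟨k, hk⟩ : ∃ k : ℕ, a ≤ k ∧ 1 ≤ k := by
      obtain ⟨k, hk⟩ := exists_nat_ge a
      exact ⟨k + 1, by push_cast; linarith, by omega⟩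
    have hM1 : (k : ℝ) + 1 ≤ MM k := by
      have : k + 1 < 16 ^ (k + 1) := Nat.lt_pow_self (by norm_num)
      unfold MM
      exact_mod_cast this.le
    have hM2 : (256 : ℝ) ≤ MM k := by
      have : MM 1 ≤ MM k := MM_mono hk.2
      have h1 : MM 1 = 256 := by unfold MM; norm_num
      rw [h1] at this
      exact_mod_cast this
    refine ⟨(MM k : ℝ) - 1, by linarith [hk.1], ?_⟩
    rw [EReal.coe_le_coe_iff]
    have hT : (0 : ℝ) ≤ (MM k : ℝ) - 1 := by linarith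
    have hfl : ⌊(MM k : ℝ) - 1⌋₊ + 1 ≤ MM k := by
      have h1 : ⌊(MM k : ℝ) - 1⌋₊ = MM k - 1 := by
        have : (MM k : ℝ) - 1 = ((MM k - 1 : ℕ) : ℝ) := by
          rw [Nat.cast_sub (MM_pos k)]; simp
        rw [this, Nat.floor_natCast]
      have := MM_pos k
      omega
    have h1 : sepNum (bowen phi D ((MM k : ℝ) - 1)) 1 ≤ 2 ^ (MM k + 1) := by
      apply csSup_le'
      intro n hn
      exact hup _ k hT hfl n hn
    have h2 := hpos _ hT
    rw [div_le_iff₀ (by linarith)]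
    calc Real.log (sepNum (bowen phi D ((MM k : ℝ) - 1)) 1)
        ≤ Real.log ((2 : ℝ) ^ (MM k + 1)) := by
          apply Real.log_le_log
          · exact_mod_cast h2
          · exact_mod_cast h1
      _ = (MM k + 1) * Real.log 2 := by rw [Real.log_pow]; push_cast; ring
      _ ≤ (MM k + 1) * 0.6931471808 := by gcongr
      _ ≤ 0.7 * ((MM k : ℝ) - 1) := by
          norm_num
          linarith
  · apply Filter.le_limsup_of_frequently_le'
    rw [Filter.frequently_atTop]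
    intro a
    obtain ⟨k, hk⟩ := exists_nat_ge a
    have hM1 : (k : ℝ) + 1 ≤ MM k := by
      have : k + 1 < 16 ^ (k + 1) := Nat.lt_pow_self (by norm_num)
      unfold MM
      exact_mod_cast this.le
    have hM0 : (0 : ℝ) < MM k := by exact_mod_cast MM_pos k
    refine ⟨9 * (MM k : ℝ), by linarith, ?_⟩
    rw [EReal.coe_le_coe_iff]
    have hT : (0 : ℝ) ≤ 9 * (MM k : ℝ) := by linarith
    obtain ⟨E, hE, hS⟩ := shift_to_flow (sepd_EE k) (T := 9 * (MM k : ℝ))
      (by push_cast; linarith)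
    have h1 : 5 ^ (4 * MM k) ≤ sepNum (bowen phi D (9 * (MM k : ℝ))) 1 := by
      apply le_csSup (hbdd _ hT)
      exact ⟨E, (hset _ hT E).2 hS, by rw [hE, card_EE]⟩
    rw [le_div_iff₀ (by linarith)]
    calc 0.71 * (9 * (MM k : ℝ)) ≤ (4 / 9 * Real.log 5) * (9 * (MM k : ℝ)) := by gcongr
      _ = (4 * MM k : ℕ) * Real.log 5 := by push_cast; ring
      _ = Real.log ((5 : ℝ) ^ (4 * MM k)) := by rw [Real.log_pow]
      _ ≤ Real.log (sepNum (bowen phi D (9 * (MM k : ℝ))) 1) := by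
          apply Real.log_le_log (by positivity)
          exact_mod_cast h1

end Pool.Agent.Q192.FL
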