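import Pool.Agent.Q192.FL.Horse

/-!
The embedded full shift on five symbols of the diffeomorphism `FF` of the 2-torus.
-/

namespace Pool.Agent.Q192.FL

open Set Topology

/-- Bi-infinite sequences. -/
abbrev XX := ℤ → ZMod 5

/-- Shift by `n`. -/
def shf (n : ℤ) (u : XX) : XX := fun i => u (i + n)

@[simp] theorem shf_apply (n : ℤ) (u : XX) (i : ℤ) : shf n u i = u (i + n) := rfl

theorem shf_zero (u : XX) : shf 0 u = u := by funext i; simp

theorem shf_shf (m n : ℤ) (u : XX) : shf m (shf n u) = shf (m + n) u := by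
  funext i; simp [add_assoc]

theorem continuous_shf (n : ℤ) : Continuous (shf n) := by
  unfold shf; fun_prop

/-- One-sided expansions. -/
noncomputable def AA (s : ℕ → ZMod 5) : ℝ := ∑' j : ℕ, ((s j).val : ℝ) * (1 / 32) ^ j

theorem val_le (a : ZMod 5) : ((a.val : ℕ) : ℝ) ≤ 4 := by
  have : a.val < 5 := ZMod.val_lt a
  exact_mod_cast Nat.lt_succ_iff.1 this

theorem summable_bound : Summable (fun j : ℕ => (4 : ℝ) * (1 / 32) ^ j) :=
  (summable_geometric_of_lt_one (by norm_num) (by norm_num)).mul_left 4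

theorem summable_AA (s : ℕ → ZMod 5) :
    Summable (fun j : ℕ => ((s j).val : ℝ) * (1 / 32) ^ j) := by
  refine Summable.of_nonneg_of_le (fun j => by positivity) (fun j => ?_) summable_bound
  have := val_le (s j)
  gcongr

theorem AA_nonneg (s : ℕ → ZMod 5) : 0 ≤ AA s := tsum_nonneg fun j => by positivity

theorem AA_le (s : ℕ → ZMod 5) : AA s ≤ 128 / 31 := by
  have h1 : AA s ≤ ∑' j : ℕ, (4 : ℝ) * (1 / 32) ^ j := by
    refine (summable_AA s).tsum_le_tsum (fun j => ?_) summable_bound
    have := val_le (s j)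
    gcongr
  have h2 : ∑' j : ℕ, (4 : ℝ) * (1 / 32) ^ j = 128 / 31 := by
    rw [tsum_mul_left, tsum_geometric_of_lt_one (by norm_num) (by norm_num)]
    norm_num
  linarith

theorem AA_succ (s : ℕ → ZMod 5) : AA s = ((s 0).val : ℝ) + AA (fun j => s (j + 1)) / 32 := by
  unfold AA
  rw [(summable_AA s).tsum_eq_zero_add, pow_zero, mul_one, ← tsum_div_const]
  congr 1
  apply tsum_congr
  intro j
  rw [pow_succ]
  ring

theorem continuous_AA : Continuous AA := by
  unfold AA
  refine continuous_tsum (fun j => ?_) summable_bound (fun j s => ?_)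
  · have h1 : Continuous fun s : ℕ → ZMod 5 => s j := continuous_apply j
    have h2 : Continuous fun a : ZMod 5 => ((a.val : ℕ) : ℝ) := continuous_of_discreteTopology
    exact (h2.comp h1).mul continuous_const
  · rw [Real.norm_of_nonneg (by positivity)]
    have := val_le (s j)
    gcongr

noncomputable def Rr (u : XX) : ℝ := AA (fun j : ℕ => u j)
noncomputable def Ll (u : XX) : ℝ := AA (fun j : ℕ => u (-1 - j)) / 32

theorem continuous_Rr : Continuous Rr := continuous_AA.comp (by fun_prop)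
theorem continuous_Ll : Continuous Ll :=
  (continuous_AA.comp (by fun_prop : Continuous fun (u : XX) (j : ℕ) => u (-1 - j))).div_const _

theorem Rr_eq (u : XX) : Rr u = ((u 0).val : ℝ) + Rr (shf 1 u) / 32 := by
  unfold Rr
  rw [AA_succ]
  simp

theorem Ll_eq (u : XX) : Ll (shf 1 u) = (((u 0).val : ℝ) + Ll u) / 32 := by
  unfold Ll
  rw [AA_succ]
  have e : (fun j : ℕ => shf 1 u (-1 - ((j + 1 : ℕ) : ℤ))) = fun j : ℕ => u (-1 - (j : ℤ)) := by
    funext j
    rw [shf_apply]
    congr 1
    push_cast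
    ring
  rw [e]
  simp

theorem Rr_nonneg (u : XX) : 0 ≤ Rr u := AA_nonneg _
theorem Rr_le (u : XX) : Rr u ≤ 128 / 31 := AA_le _
theorem Ll_nonneg (u : XX) : 0 ≤ Ll u := div_nonneg (AA_nonneg _) (by norm_num)
theorem Ll_le (u : XX) : Ll u ≤ 4 / 31 := by
  unfold Ll
  have := AA_le (fun j : ℕ => u (-1 - j))
  linarith

/-- The first coordinate of a coded point. -/
noncomputable def xx (u : XX) : ℝ := 32 / 1023 * (Rr u + Ll u)

theorem continuous_xx : Continuous xx :=
  continuous_const.mul (continuous_Rr.add continuous_Ll)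

theorem xx_nonneg (u : XX) : 0 ≤ xx u := by
  unfold xx
  have := Rr_nonneg u
  have := Ll_nonneg u
  positivity

theorem xx_le (u : XX) : xx u ≤ 1 / 7 := by
  unfold xx
  have := Rr_le u
  have := Ll_le u
  linarith

theorem xx_abs (u : XX) : |xx u| ≤ 1 / 7 := by
  rw [abs_of_nonneg (xx_nonneg u)]; exact xx_le u

theorem xx_sub_abs (u v : XX) : |xx u - xx v| ≤ 1 / 7 := by
  rw [abs_le]
  have h1 := xx_nonneg u
  have h2 := xx_nonneg v
  have h3 := xx_le u
  have h4 := xx_le v
  constructor <;> linarith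

theorem xx_rec (u : XX) :
    xx (shf 2 u) + xx u - (2 + bb) * xx (shf 1 u) = -((u 1).val : ℝ) := by
  have h1 := Rr_eq u
  have h2 := Rr_eq (shf 1 u)
  have h3 := Ll_eq u
  have h4 := Ll_eq (shf 1 u)
  have e1 : (0 + 1 : ℤ) = 1 := by norm_num
  have e2 : (1 + 1 : ℤ) = 2 := by norm_num
  rw [shf_shf, shf_apply, e1, e2] at h2 h4
  unfold xx bb
  linarith

/-- Bounds of the coordinate by the zeroth digit. -/
theorem xx_digit (u : XX) : ((u 0).val : ℝ) ≤ xx u / (32 / 1023) ∧
    xx u / (32 / 1023) ≤ ((u 0).val : ℝ) + 8 / 31 := by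
  have h1 := Rr_eq u
  have h2 := Rr_nonneg (shf 1 u)
  have h3 := Rr_le (shf 1 u)
  have h4 := Ll_nonneg u
  have h5 := Ll_le u
  have e : xx u / (32 / 1023) = Rr u + Ll u := by unfold xx; field_simp
  rw [e]
  constructor <;> linarith

/-- The coding map. -/
noncomputable def pp (u : XX) : T2 := (ee (xx u), ee (xx (shf 1 u) - xx u))

theorem continuous_pp : Continuous pp := by
  unfold pp
  exact (continuous_ee.comp continuous_xx).prodMk
    (continuous_ee.comp ((continuous_xx.comp (continuous_shf 1)).sub continuous_xx))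

theorem FF_pp (u : XX) : FF (pp u) = pp (shf 1 u) := by
  rw [FF_apply]
  unfold pp
  have h1 : gg (ee (xx (shf 1 u) - xx u)) = xx (shf 1 u) - xx u := gg_ee (xx_sub_abs _ _)
  have h2 : ee (xx u) * ee (xx (shf 1 u) - xx u) = ee (xx (shf 1 u)) := by
    rw [← ee_add]; congr 1; ring
  have h3 : gg (ee (xx (shf 1 u))) = xx (shf 1 u) := gg_ee (xx_abs _)
  simp only [h1, h2, h3]
  congr 1
  rw [← ee_add, shf_shf]
  have h4 := xx_rec u
  have h5 : xx (shf 1 u) - xx u + bb * xx (shf 1 u) =
      xx (shf (1 + 1) u) - xx (shf 1 u) + ((u 1).val : ℤ) := by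
    have : (1 + 1 : ℤ) = 2 := by norm_num
    rw [this]
    push_cast
    linarith
  rw [h5, ee_add_int]

theorem FF_pow_pp (n : ℕ) (u : XX) : (FF ^ n) (pp u) = pp (shf n u) := by
  induction n with
  | zero => simp [shf_zero]
  | succ n ih =>
    rw [pow_succ', Equiv.Perm.mul_apply, ih, FF_pp, shf_shf]
    congr 2
    push_cast
    ring

theorem FF_zpow_pp (n : ℤ) (u : XX) : (FF ^ n) (pp u) = pp (shf n u) := by
  rcases le_total 0 n with h | h
  · obtain ⟨m, rfl⟩ := Int.eq_ofNat_of_zero_le h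
    rw [zpow_natCast]
    exact FF_pow_pp m u
  · obtain ⟨m, rfl⟩ := Int.exists_eq_neg_ofNat h
    rw [zpow_neg, zpow_natCast, Equiv.Perm.inv_eq_iff_eq, FF_pow_pp, shf_shf]
    simp [shf_zero]

theorem pp_injective : Function.Injective pp := by
  intro u v huv
  have key : ∀ n : ℤ, xx (shf n u) = xx (shf n v) := by
    intro n
    have h1 : pp (shf n u) = pp (shf n v) := by rw [← FF_zpow_pp, ← FF_zpow_pp, huv]
    have h2 : ee (xx (shf n u)) = ee (xx (shf n v)) := congrArg Prod.fst h1
    rw [← gg_ee (xx_abs (shf n u)), ← gg_ee (xx_abs (shf n v)), h2]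
  funext i
  have h1 := xx_rec (shf (i - 1) u)
  have h2 := xx_rec (shf (i - 1) v)
  rw [shf_shf, shf_shf] at h1 h2
  rw [key, key, key] at h1
  have h3 : (((shf (i - 1) u) 1).val : ℝ) = (((shf (i - 1) v) 1).val : ℝ) := by linarith
  simp only [shf_apply] at h3
  have h4 : (u i).val = (v i).val := by
    have e : (1 + (i - 1)) = i := by ring
    rw [e] at h3
    exact_mod_cast h3
  exact ZMod.val_injective 5 h4

/-- Disjoint open neighbourhoods of the cylinders. -/
def NN (a : ZMod 5) : Set T2 :=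
  {p | (a.val : ℝ) - 1 / 4 < gg p.1 / (32 / 1023) ∧ gg p.1 / (32 / 1023) < (a.val : ℝ) + 1 / 2}

theorem isOpen_NN (a : ZMod 5) : IsOpen (NN a) := by
  have hc : Continuous fun p : T2 => gg p.1 / (32 / 1023) :=
    (continuous_gg.comp continuous_fst).div_const _
  exact (isOpen_lt continuous_const hc).inter (isOpen_lt hc continuous_const)

theorem pp_mem_NN (u : XX) : pp u ∈ NN (u 0) := by
  have h := xx_digit u
  have e : gg (pp u).1 = xx u := gg_ee (xx_abs u)
  constructor
  · rw [e]; linarith [h.1]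
  · rw [e]; linarith [h.2]

theorem NN_inj {a b : ZMod 5} {p : T2} (ha : p ∈ NN a) (hb : p ∈ NN b) : a = b := by
  have h1 : (a.val : ℝ) < (b.val : ℝ) + 1 := by linarith [ha.1, hb.2]
  have h2 : (b.val : ℝ) < (a.val : ℝ) + 1 := by linarith [hb.1, ha.2]
  have h3 : a.val < b.val + 1 := by exact_mod_cast h1
  have h4 : b.val < a.val + 1 := by exact_mod_cast h2
  exact ZMod.val_injective 5 (by omega)

end Pool.Agent.Q192.FL
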