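import Pool.Agent.Q192.FL.Code

/-!
The smooth flow on the 3-torus with return map `FF`.
-/

namespace Pool.Agent.Q192.FL

open Set Topology Manifold
open scoped ContDiff

attribute [local instance] finrank_real_complex_fact'

noncomputable def a1 (s : ℝ) : ℝ := Real.smoothTransition (4 * s - 1)
noncomputable def a2 (s : ℝ) : ℝ := Real.smoothTransition (4 * s - 2)

theorem contDiff_a1 : ContDiff ℝ ∞ a1 :=
  (Real.smoothTransition.contDiff (n := ⊤)).comp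
    ((contDiff_const.mul contDiff_id).sub contDiff_const)

theorem contDiff_a2 : ContDiff ℝ ∞ a2 :=
  (Real.smoothTransition.contDiff (n := ⊤)).comp
    ((contDiff_const.mul contDiff_id).sub contDiff_const)

/-- The isotopy on the unit interval. -/
noncomputable def G0 (s : ℝ) : Equiv.Perm T2 := QQ (a2 s) * PP (a1 s)

theorem G0_of_le {s : ℝ} (h : s ≤ 1 / 4) : G0 s = 1 := by
  unfold G0 a1 a2
  rw [Real.smoothTransition.zero_of_nonpos (by linarith),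
    Real.smoothTransition.zero_of_nonpos (by linarith), PP_zero, QQ_zero, one_mul]

theorem G0_of_ge {s : ℝ} (h : 3 / 4 ≤ s) : G0 s = FF := by
  unfold G0 a1 a2 FF
  rw [Real.smoothTransition.one_of_one_le (by linarith),
    Real.smoothTransition.one_of_one_le (by linarith)]

/-- The isotopy. -/
noncomputable def HH (s : ℝ) : Equiv.Perm T2 := G0 (Int.fract s) * FF ^ ⌊s⌋

theorem HH_add_int (s : ℝ) (n : ℤ) : HH (s + n) = HH s * FF ^ n := by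
  unfold HH
  rw [Int.fract_add_intCast, Int.floor_add_intCast, zpow_add, mul_assoc]

theorem HH_eq {s : ℝ} {n : ℤ} (h1 : (n : ℝ) - 1 / 4 < s) (h2 : s < n + 5 / 4) :
    HH s = G0 (s - n) * FF ^ n := by
  have hf1 : (⌊s⌋ : ℝ) ≤ s := Int.floor_le s
  have hf2 : s < ⌊s⌋ + 1 := Int.lt_floor_add_one s
  have h3 : (n : ℝ) < ⌊s⌋ + 2 := by linarith
  have h4 : (⌊s⌋ : ℝ) < n + 2 := by linarith
  have h3' : n < ⌊s⌋ + 2 := by exact_mod_cast h3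
  have h4' : ⌊s⌋ < n + 2 := by exact_mod_cast h4
  have h5 : ⌊s⌋ = n - 1 ∨ ⌊s⌋ = n ∨ ⌊s⌋ = n + 1 := by omega
  unfold HH Int.fract
  rcases h5 with h5 | h5 | h5
  · rw [h5] at hf1 hf2 ⊢
    push_cast at hf1 hf2 ⊢
    rw [G0_of_ge (by linarith), G0_of_le (by linarith), one_mul, ← zpow_one_add]
    congr 1; ring
  · rw [h5]
  · rw [h5] at hf1 hf2 ⊢
    push_cast at hf1 hf2 ⊢
    rw [G0_of_le (by linarith), G0_of_ge (by linarith), one_mul, ← zpow_one_add]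
    congr 1; ring

theorem HH_small {s : ℝ} (h1 : -(1 / 4) < s) (h2 : s ≤ 1 / 4) : HH s = 1 := by
  rw [HH_eq (n := 0) (by push_cast; linarith) (by push_cast; linarith)]
  rw [G0_of_le (by push_cast; linarith), zpow_zero, one_mul]

theorem HH_zero : HH 0 = 1 := HH_small (by norm_num) (by norm_num)

theorem HH_int (n : ℤ) : HH n = FF ^ n := by
  have := HH_add_int 0 n
  rwa [zero_add, HH_zero, one_mul] at this

/-- Holonomy. -/
noncomputable def KK (s t : ℝ) : Equiv.Perm T2 := HH (s + t) * (HH s)⁻¹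

theorem KK_add_int (s t : ℝ) (n : ℤ) : KK (s + n) t = KK s t := by
  unfold KK
  have : s + n + t = s + t + n := by ring
  rw [this, HH_add_int, HH_add_int, mul_inv_rev]
  group

theorem KK_comp (s t t' : ℝ) : KK (s + t') t * KK s t' = KK s (t + t') := by
  unfold KK
  have : s + t' + t = s + (t + t') := by ring
  rw [this]
  group

theorem KK_zero (s : ℝ) : KK s 0 = 1 := by
  unfold KK; rw [add_zero, mul_inv_cancel]

/-- The 3-torus. -/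
abbrev T3 := (Circle × Circle) × Circle

noncomputable abbrev I3 := ((𝓡 1).prod (𝓡 1)).prod (𝓡 1)

noncomputable def sl (ζ : Circle) : ℝ := Classical.choose (ee_surj ζ)

theorem ee_sl (ζ : Circle) : ee (sl ζ) = ζ := Classical.choose_spec (ee_surj ζ)

/-- The flow. -/
noncomputable def phi (t : ℝ) (x : T3) : T3 := (KK (sl x.2) t x.1, x.2 * ee t)

theorem phi_lift (t s : ℝ) (p : T2) : phi t (p, ee s) = (KK s t p, ee (s + t)) := by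
  unfold phi
  obtain ⟨n, hn⟩ := ee_eq (ee_sl (ee s))
  simp only
  rw [hn, KK_add_int, ee_add]

theorem phi_zero (x : T3) : phi 0 x = x := by
  obtain ⟨p, ζ⟩ := x
  obtain ⟨s, rfl⟩ := ee_surj ζ
  rw [phi_lift, KK_zero, add_zero, Equiv.Perm.one_apply]

theorem phi_add (t t' : ℝ) (x : T3) : phi (t + t') x = phi t (phi t' x) := by
  obtain ⟨p, ζ⟩ := x
  obtain ⟨s, rfl⟩ := ee_surj ζ
  rw [phi_lift, phi_lift, phi_lift, ← KK_comp, Equiv.Perm.mul_apply]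
  congr 2
  ring

theorem phi_int (n : ℤ) (p : T2) : phi n (p, 1) = ((FF ^ n) p, 1) := by
  have h := phi_lift n 0 p
  rw [ee_zero, zero_add, ee_int] at h
  rw [h]
  unfold KK
  rw [zero_add, HH_int, HH_zero, inv_one, mul_one]

theorem phi_small {s : ℝ} (h1 : -(1 / 4) < s) (h2 : s ≤ 1 / 4) (p : T2) :
    phi s (p, 1) = (p, ee s) := by
  have h := phi_lift s 0 p
  rw [ee_zero, zero_add] at h
  rw [h]
  unfold KK
  rw [zero_add, HH_small h1 h2, HH_zero, inv_one, mul_one, Equiv.Perm.one_apply]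

theorem phi_snd (t : ℝ) (x : T3) : (phi t x).2 = x.2 * ee t := rfl

/-! Smoothness. -/

theorem contMDiff_HH : ContMDiff (𝓘(ℝ, ℝ).prod I2) I2 ∞ (fun q : ℝ × T2 => HH q.1 q.2) := by
  intro q0
  set n : ℤ := ⌊q0.1⌋ with hn
  have hs : ContMDiff (𝓘(ℝ, ℝ).prod I2) 𝓘(ℝ, ℝ) ∞ (fun q : ℝ × T2 => q.1 - n) :=
    contMDiff_fst.sub contMDiff_const
  have h1 : ContMDiff (𝓘(ℝ, ℝ).prod I2) 𝓘(ℝ, ℝ) ∞ (fun q : ℝ × T2 => a1 (q.1 - n)) :=
    contDiff_a1.contMDiff.comp hs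
  have h2 : ContMDiff (𝓘(ℝ, ℝ).prod I2) 𝓘(ℝ, ℝ) ∞ (fun q : ℝ × T2 => a2 (q.1 - n)) :=
    contDiff_a2.contMDiff.comp hs
  have h3 : ContMDiff (𝓘(ℝ, ℝ).prod I2) I2 ∞ (fun q : ℝ × T2 => (FF ^ n) q.2) :=
    (contMDiff_FF_zpow n).comp contMDiff_snd
  have h4 : ContMDiff (𝓘(ℝ, ℝ).prod I2) I2 ∞
      ((fun q : ℝ × T2 => PP q.1 q.2) ∘ fun q : ℝ × T2 => (a1 (q.1 - n), (FF ^ n) q.2)) :=
    contMDiff_PP.comp (h1.prodMk h3)
  have h5 : ContMDiff (𝓘(ℝ, ℝ).prod I2) I2 ∞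
      ((fun q : ℝ × T2 => QQ q.1 q.2) ∘ fun q : ℝ × T2 => (a2 (q.1 - n),
        ((fun q : ℝ × T2 => PP q.1 q.2) ∘ fun q : ℝ × T2 => (a1 (q.1 - n), (FF ^ n) q.2)) q)) :=
    contMDiff_QQ.comp (h2.prodMk h4)
  refine (h5 q0).congr_of_eventuallyEq ?_
  have hU : ∀ᶠ q : ℝ × T2 in 𝓝 q0, (n : ℝ) - 1 / 4 < q.1 ∧ q.1 < n + 5 / 4 := by
    have e1 : ∀ᶠ q : ℝ × T2 in 𝓝 q0, (n : ℝ) - 1 / 4 < q.1 := by
      apply continuousAt_const.eventually_lt continuous_fst.continuousAt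
      have : (n : ℝ) ≤ q0.1 := Int.floor_le _
      linarith
    have e2 : ∀ᶠ q : ℝ × T2 in 𝓝 q0, q.1 < (n : ℝ) + 5 / 4 := by
      apply continuous_fst.continuousAt.eventually_lt continuousAt_const
      have : q0.1 < n + 1 := Int.lt_floor_add_one _
      linarith
    exact e1.and e2
  filter_upwards [hU] with q hq
  rw [HH_eq hq.1 hq.2]
  rfl

theorem contMDiff_HH_inv :
    ContMDiff (𝓘(ℝ, ℝ).prod I2) I2 ∞ (fun q : ℝ × T2 => (HH q.1)⁻¹ q.2) := by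
  intro q0
  set n : ℤ := ⌊q0.1⌋ with hn
  have hs : ContMDiff (𝓘(ℝ, ℝ).prod I2) 𝓘(ℝ, ℝ) ∞ (fun q : ℝ × T2 => q.1 - n) :=
    contMDiff_fst.sub contMDiff_const
  have h1 : ContMDiff (𝓘(ℝ, ℝ).prod I2) 𝓘(ℝ, ℝ) ∞ (fun q : ℝ × T2 => a1 (q.1 - n)) :=
    contDiff_a1.contMDiff.comp hs
  have h2 : ContMDiff (𝓘(ℝ, ℝ).prod I2) 𝓘(ℝ, ℝ) ∞ (fun q : ℝ × T2 => a2 (q.1 - n)) :=
    contDiff_a2.contMDiff.comp hs
  have h4 : ContMDiff (𝓘(ℝ, ℝ).prod I2) I2 ∞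
      ((fun q : ℝ × T2 => (QQ q.1)⁻¹ q.2) ∘ fun q : ℝ × T2 => (a2 (q.1 - n), q.2)) :=
    contMDiff_QQ_inv.comp (h2.prodMk contMDiff_snd)
  have h5 : ContMDiff (𝓘(ℝ, ℝ).prod I2) I2 ∞
      ((fun q : ℝ × T2 => (PP q.1)⁻¹ q.2) ∘ fun q : ℝ × T2 => (a1 (q.1 - n),
        ((fun q : ℝ × T2 => (QQ q.1)⁻¹ q.2) ∘ fun q : ℝ × T2 => (a2 (q.1 - n), q.2)) q)) :=
    contMDiff_PP_inv.comp (h1.prodMk h4)
  have h6 := (contMDiff_FF_zpow (-n)).comp h5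
  refine (h6 q0).congr_of_eventuallyEq ?_
  have hU : ∀ᶠ q : ℝ × T2 in 𝓝 q0, (n : ℝ) - 1 / 4 < q.1 ∧ q.1 < n + 5 / 4 := by
    have e1 : ∀ᶠ q : ℝ × T2 in 𝓝 q0, (n : ℝ) - 1 / 4 < q.1 := by
      apply continuousAt_const.eventually_lt continuous_fst.continuousAt
      have : (n : ℝ) ≤ q0.1 := Int.floor_le _
      linarith
    have e2 : ∀ᶠ q : ℝ × T2 in 𝓝 q0, q.1 < (n : ℝ) + 5 / 4 := by
      apply continuous_fst.continuousAt.eventually_lt continuousAt_const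
      have : q0.1 < n + 1 := Int.lt_floor_add_one _
      linarith
    exact e1.and e2
  filter_upwards [hU] with q hq
  rw [HH_eq hq.1 hq.2, mul_inv_rev, ← zpow_neg, G0, mul_inv_rev, Equiv.Perm.mul_apply,
    Equiv.Perm.mul_apply]
  rfl

theorem contMDiff_KK : ContMDiff ((𝓘(ℝ, ℝ).prod 𝓘(ℝ, ℝ)).prod I2) I2 ∞
    (fun q : (ℝ × ℝ) × T2 => KK q.1.1 q.1.2 q.2) := by
  have hs : ContMDiff ((𝓘(ℝ, ℝ).prod 𝓘(ℝ, ℝ)).prod I2) 𝓘(ℝ, ℝ) ∞
      (fun q : (ℝ × ℝ) × T2 => q.1.1) := contMDiff_fst.comp contMDiff_fst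
  have ht : ContMDiff ((𝓘(ℝ, ℝ).prod 𝓘(ℝ, ℝ)).prod I2) 𝓘(ℝ, ℝ) ∞
      (fun q : (ℝ × ℝ) × T2 => q.1.2) := contMDiff_snd.comp contMDiff_fst
  have h1 : ContMDiff ((𝓘(ℝ, ℝ).prod 𝓘(ℝ, ℝ)).prod I2) I2 ∞
      ((fun q : ℝ × T2 => (HH q.1)⁻¹ q.2) ∘ fun q : (ℝ × ℝ) × T2 => (q.1.1, q.2)) :=
    contMDiff_HH_inv.comp (hs.prodMk contMDiff_snd)
  have h2 : ContMDiff ((𝓘(ℝ, ℝ).prod 𝓘(ℝ, ℝ)).prod I2) I2 ∞
      ((fun q : ℝ × T2 => HH q.1 q.2) ∘ fun q : (ℝ × ℝ) × T2 => (q.1.1 + q.1.2,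
        ((fun q : ℝ × T2 => (HH q.1)⁻¹ q.2) ∘ fun q : (ℝ × ℝ) × T2 => (q.1.1, q.2)) q)) :=
    contMDiff_HH.comp ((hs.add ht).prodMk h1)
  exact h2

theorem isOpenMap_ee : IsOpenMap ee := by
  have h : IsOpenMap (fun x : ℝ => Circle.exp x) := isLocalHomeomorph_circleExp.isOpenMap
  have h' : IsOpenMap (fun x : ℝ => 2 * Real.pi * x) :=
    (Homeomorph.mulLeft₀ (2 * Real.pi) Real.two_pi_pos.ne').isOpenMap
  exact h.comp h'

theorem contMDiff_phi : ContMDiff (𝓘(ℝ, ℝ).prod I3) I3 ∞ (fun q : ℝ × T3 => phi q.1 q.2) := by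
  intro q0
  obtain ⟨s0, hs0⟩ := ee_surj q0.2.2
  have ht : ContMDiff (𝓘(ℝ, ℝ).prod I3) 𝓘(ℝ, ℝ) ∞ (fun q : ℝ × T3 => q.1) := contMDiff_fst
  have hp : ContMDiff (𝓘(ℝ, ℝ).prod I3) I2 ∞ (fun q : ℝ × T3 => q.2.1) :=
    contMDiff_fst.comp contMDiff_snd
  have hz : ContMDiff (𝓘(ℝ, ℝ).prod I3) (𝓡 1) ∞ (fun q : ℝ × T3 => q.2.2) :=
    contMDiff_snd.comp contMDiff_snd
  have hl : ContMDiff (𝓘(ℝ, ℝ).prod I3) 𝓘(ℝ, ℝ) ∞
      (fun q : ℝ × T3 => s0 + gg (q.2.2 * (ee s0)⁻¹)) :=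
    contMDiff_const.add (contMDiff_gg.comp (hz.mul contMDiff_const))
  have h1 : ContMDiff (𝓘(ℝ, ℝ).prod I3) I2 ∞
      ((fun q : (ℝ × ℝ) × T2 => KK q.1.1 q.1.2 q.2) ∘
        fun q : ℝ × T3 => ((s0 + gg (q.2.2 * (ee s0)⁻¹), q.1), q.2.1)) :=
    contMDiff_KK.comp ((hl.prodMk ht).prodMk hp)
  have h2 : ContMDiff (𝓘(ℝ, ℝ).prod I3) (𝓡 1) ∞ (fun q : ℝ × T3 => q.2.2 * ee q.1) :=
    hz.mul (contMDiff_ee.comp ht)
  refine ((h1.prodMk h2) q0).congr_of_eventuallyEq ?_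
  -- the local lift
  have hc : ∀ᶠ ζ : Circle in 𝓝 (1 : Circle), ee (gg ζ) = ζ := by
    have hopen : IsOpenMap ee := isOpenMap_ee
    have hmem : ee '' Ioo (-(1 / 7)) (1 / 7) ∈ 𝓝 (1 : Circle) := by
      have := hopen (Ioo (-(1 / 7)) (1 / 7)) isOpen_Ioo
      exact this.mem_nhds ⟨0, by norm_num, ee_zero⟩
    filter_upwards [hmem] with ζ hζ
    obtain ⟨y, hy, rfl⟩ := hζ
    rw [gg_ee (abs_le.2 ⟨hy.1.le, hy.2.le⟩)]
  have hcont : Filter.Tendsto (fun q : ℝ × T3 => q.2.2 * (ee s0)⁻¹) (𝓝 q0) (𝓝 1) := by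
    have h : Continuous fun q : ℝ × T3 => q.2.2 * (ee s0)⁻¹ := by fun_prop
    have h' := h.tendsto q0
    rwa [← hs0, mul_inv_cancel] at h'
  filter_upwards [hcont.eventually hc] with q hq
  have hq2 : q.2.2 = ee (s0 + gg (q.2.2 * (ee s0)⁻¹)) := by
    rw [ee_add, hq]
    rw [mul_comm, mul_assoc, inv_mul_cancel, mul_one]
  have h3 : phi q.1 q.2 = phi q.1 (q.2.1, ee (s0 + gg (q.2.2 * (ee s0)⁻¹))) := by
    rw [← hq2]
  rw [h3, phi_lift, ee_add, ← hq2]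
  rfl

theorem continuous_phi : Continuous (fun q : ℝ × T3 => phi q.1 q.2) := contMDiff_phi.continuous

theorem continuous_orbit (x : T3) : Continuous fun t : ℝ => phi t x := by
  have h : Continuous fun t : ℝ => (t, x) := by fun_prop
  have h2 := continuous_phi.comp h
  exact h2

attribute [irreducible] phi

end Pool.Agent.Q192.FL
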