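import Pool.Agent.Q192.FL.Met
import Pool.Agent.Q192.FL.Flow

/-!
Separation and spanning numbers of a flow.
-/

namespace Pool.Agent.Q192.FL

open Set Topology Manifold
open scoped ContDiff

/-- `D_T(x, y)`, the maximum of `D (φ t x) (φ t y)` over `0 ≤ t ≤ T`. -/
noncomputable def bowen {M : Type*} (φ : ℝ → M → M) (D : M → M → ℝ) (T : ℝ) (x y : M) : ℝ :=
  sSup ((fun t => D (φ t x) (φ t y)) '' Icc 0 T)

/-- `E` is an `ε`-separated set for `ρ`. -/
def IsSepSet {M : Type*} (ρ : M → M → ℝ) (ε : ℝ) (E : Finset M) : Prop :=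
  ∀ x ∈ E, ∀ y ∈ E, x ≠ y → ε ≤ ρ x y

/-- The largest size of an `ε`-separated set. -/
noncomputable def sepNum {M : Type*} (ρ : M → M → ℝ) (ε : ℝ) : ℕ :=
  sSup {n : ℕ | ∃ E : Finset M, IsSepSet ρ ε E ∧ E.card = n}

/-- `E` is an `ε`-spanning set for `ρ`. -/
def IsSpanSet {M : Type*} (ρ : M → M → ℝ) (ε : ℝ) (E : Finset M) : Prop :=
  ∀ x, ∃ y ∈ E, ρ y x < ε

/-- The smallest size of an `ε`-spanning set. -/
noncomputable def spanNum {M : Type*} (ρ : M → M → ℝ) (ε : ℝ) : ℕ :=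
  sInf {n : ℕ | ∃ E : Finset M, IsSpanSet ρ ε E ∧ E.card = n}

/-- A smooth flow on the 3-torus. -/
structure IsSmoothFlow (φ : ℝ → T3 → T3) : Prop where
  zero : ∀ x, φ 0 x = x
  add : ∀ s t x, φ (s + t) x = φ s (φ t x)
  smooth : ContMDiff (𝓘(ℝ, ℝ).prod I3) I3 ∞ (fun q : ℝ × T3 => φ q.1 q.2)

theorem isSmoothFlow_phi : IsSmoothFlow phi := ⟨phi_zero, phi_add, contMDiff_phi⟩

section
variable {D : T3 → T3 → ℝ}

theorem compact_image (hc : Continuous (fun p : T3 × T3 => D p.1 p.2)) (T : ℝ) (x y : T3) :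
    IsCompact ((fun t => D (phi t x) (phi t y)) '' Icc 0 T) := by
  apply isCompact_Icc.image
  exact hc.comp ((continuous_orbit x).prodMk (continuous_orbit y))

theorem le_bowen (hc : Continuous (fun p : T3 × T3 => D p.1 p.2)) {T t : ℝ} {x y : T3}
    (ht : t ∈ Icc 0 T) : D (phi t x) (phi t y) ≤ bowen phi D T x y :=
  le_csSup (compact_image hc T x y).bddAbove (mem_image_of_mem _ ht)

theorem exists_bowen (hc : Continuous (fun p : T3 × T3 => D p.1 p.2)) {T : ℝ} (hT : 0 ≤ T)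
    (x y : T3) : ∃ t ∈ Icc 0 T, D (phi t x) (phi t y) = bowen phi D T x y := by
  have h := (compact_image hc T x y).sSup_mem ⟨_, mem_image_of_mem _ (left_mem_Icc.2 hT)⟩
  obtain ⟨t, ht, h1⟩ := h
  exact ⟨t, ht, h1⟩

theorem one_le_bowen_iff (hc : Continuous (fun p : T3 × T3 => D p.1 p.2)) {T : ℝ} (hT : 0 ≤ T)
    (x y : T3) : 1 ≤ bowen phi D T x y ↔ ∃ t ∈ Icc 0 T, 1 ≤ D (phi t x) (phi t y) := by
  constructor
  · intro h
    obtain ⟨t, ht, h1⟩ := exists_bowen hc hT x y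
    exact ⟨t, ht, by rw [h1]; exact h⟩
  · rintro ⟨t, ht, h⟩
    exact h.trans (le_bowen hc ht)

end

end Pool.Agent.Q192.FL
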