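import Mathlib

/-!
A smooth diffeomorphism of the 2-torus, isotopic to the identity through an explicit path, with
an embedded full shift on five symbols.
-/

namespace Pool.Agent.Q192.FL

open Set Topology Manifold
open scoped ContDiff

attribute [local instance] finrank_real_complex_fact'

/-- `e x = exp (2 π i x)`. -/
noncomputable def ee (x : ℝ) : Circle := Circle.exp (2 * Real.pi * x)

theorem ee_zero : ee 0 = 1 := by simp [ee]

theorem ee_add (x y : ℝ) : ee (x + y) = ee x * ee y := by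
  simp [ee, mul_add, Circle.exp_add]

theorem ee_neg (x : ℝ) : ee (-x) = (ee x)⁻¹ := by
  simp [ee, mul_neg, Circle.exp_neg]

theorem ee_int (n : ℤ) : ee n = 1 := by
  unfold ee
  rw [Circle.exp_eq_one]
  exact ⟨n, by ring⟩

theorem ee_nat (n : ℕ) : ee n = 1 := by exact_mod_cast ee_int n

theorem ee_add_int (x : ℝ) (n : ℤ) : ee (x + n) = ee x := by rw [ee_add, ee_int, mul_one]

theorem ee_eq_one {x : ℝ} (h : ee x = 1) : ∃ n : ℤ, x = n := by
  unfold ee at h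
  rw [Circle.exp_eq_one] at h
  obtain ⟨n, hn⟩ := h
  refine ⟨n, ?_⟩
  have : 2 * Real.pi * x = 2 * Real.pi * n := by rw [hn]; ring
  exact mul_left_cancel₀ Real.two_pi_pos.ne' this

theorem ee_eq {x y : ℝ} (h : ee x = ee y) : ∃ n : ℤ, x = y + n := by
  have : ee (x - y) = 1 := by
    rw [sub_eq_add_neg, ee_add, ee_neg, h, mul_inv_cancel]
  obtain ⟨n, hn⟩ := ee_eq_one this
  exact ⟨n, by linarith⟩

theorem ee_surj (z : Circle) : ∃ x : ℝ, ee x = z := by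
  obtain ⟨t, ht⟩ := Circle.exp_surjective z
  refine ⟨t / (2 * Real.pi), ?_⟩
  unfold ee
  rw [← ht]
  congr 1
  field_simp

theorem continuous_ee : Continuous ee := by
  unfold ee; fun_prop

theorem contMDiff_ee : ContMDiff 𝓘(ℝ, ℝ) (𝓡 1) ∞ ee := by
  have h1 : ContMDiff 𝓘(ℝ, ℝ) 𝓘(ℝ, ℝ) ∞ (fun x : ℝ => 2 * Real.pi * x) :=
    (contDiff_const.mul contDiff_id).contMDiff
  exact contMDiff_circleExp.comp h1

/-- The real valued function on the complex plane whose restriction to the circle is the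
cut-off argument. -/
noncomputable def GG (z : ℂ) : ℝ :=
  Real.smoothTransition (4 * z.re - 1) * (Real.arctan (z.im / z.re) / (2 * Real.pi))

theorem contDiff_GG : ContDiff ℝ ∞ GG := by
  rw [contDiff_iff_contDiffAt]
  intro z
  have hre : ContDiff ℝ ∞ (fun z : ℂ => z.re) := Complex.reCLM.contDiff
  have him : ContDiff ℝ ∞ (fun z : ℂ => z.im) := Complex.imCLM.contDiff
  by_cases h : 0 < z.re
  · unfold GG
    apply ContDiffAt.mul
    · exact (Real.smoothTransition.contDiff (n := ⊤)).contDiffAt.comp z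
        ((contDiff_const.mul hre).sub contDiff_const).contDiffAt
    · apply ContDiffAt.div_const
      exact ContDiffAt.arctan (him.contDiffAt.div hre.contDiffAt h.ne')
  · have h2 : ∀ᶠ w : ℂ in 𝓝 z, GG w = 0 := by
      have : ∀ᶠ w : ℂ in 𝓝 z, w.re < 1 / 4 :=
        Complex.continuous_re.continuousAt.eventually_lt continuousAt_const (by push Not at h; linarith)
      filter_upwards [this] with w hw
      unfold GG
      rw [Real.smoothTransition.zero_of_nonpos (by linarith), zero_mul]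
    exact contDiffAt_const.congr_of_eventuallyEq h2

/-- The cut-off argument. -/
noncomputable def gg (z : Circle) : ℝ := GG (z : ℂ)

theorem contMDiff_gg : ContMDiff (𝓡 1) 𝓘(ℝ, ℝ) ∞ gg := by
  have h1 : ContMDiff 𝓘(ℝ, ℂ) 𝓘(ℝ, ℝ) ∞ GG := contDiff_GG.contMDiff
  exact h1.comp contMDiff_coe_sphere

theorem continuous_gg : Continuous gg := contMDiff_gg.continuous

theorem gg_ee {y : ℝ} (h : |y| ≤ 1 / 7) : gg (ee y) = y := by
  unfold gg GG ee
  rw [abs_le] at h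
  have hpi := Real.pi_pos
  have hc : ((Circle.exp (2 * Real.pi * y) : Circle) : ℂ) =
      Complex.exp ((2 * Real.pi * y : ℝ) * Complex.I) := by
    rw [Circle.coe_exp]
  rw [hc, Complex.exp_ofReal_mul_I_re, Complex.exp_ofReal_mul_I_im]
  have hcos : 1 / 2 ≤ Real.cos (2 * Real.pi * y) := by
    rw [← Real.cos_abs, ← Real.cos_pi_div_three]
    apply Real.cos_le_cos_of_nonneg_of_le_pi (abs_nonneg _) (by linarith)
    rw [abs_le]
    constructor <;> nlinarith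
  rw [Real.smoothTransition.one_of_one_le (by linarith), one_mul, ← Real.tan_eq_sin_div_cos,
    Real.arctan_tan (by nlinarith) (by nlinarith)]
  field_simp

/-- The 2-torus. -/
abbrev T2 := Circle × Circle

noncomputable abbrev I2 := (𝓡 1).prod (𝓡 1)

noncomputable def bb : ℝ := 961 / 32

/-- The first shear. -/
noncomputable def PP (a : ℝ) : Equiv.Perm T2 where
  toFun p := (p.1 * ee (a * gg p.2), p.2)
  invFun p := (p.1 * ee (-(a * gg p.2)), p.2)
  left_inv p := by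
    ext1
    · simp only [ee_neg, mul_assoc, mul_inv_cancel, mul_one]
    · rfl
  right_inv p := by
    ext1
    · simp only [ee_neg, mul_assoc, inv_mul_cancel, mul_one]
    · rfl

/-- The second shear. -/
noncomputable def QQ (a : ℝ) : Equiv.Perm T2 where
  toFun p := (p.1, p.2 * ee (a * (bb * gg p.1)))
  invFun p := (p.1, p.2 * ee (-(a * (bb * gg p.1))))
  left_inv p := by
    ext1
    · rfl
    · simp only [ee_neg, mul_assoc, mul_inv_cancel, mul_one]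
  right_inv p := by
    ext1
    · rfl
    · simp only [ee_neg, mul_assoc, inv_mul_cancel, mul_one]

@[simp] theorem PP_apply (a : ℝ) (p : T2) : PP a p = (p.1 * ee (a * gg p.2), p.2) := rfl
@[simp] theorem QQ_apply (a : ℝ) (p : T2) : QQ a p = (p.1, p.2 * ee (a * (bb * gg p.1))) := rfl
theorem PP_symm_apply (a : ℝ) (p : T2) : (PP a)⁻¹ p = (p.1 * ee (-(a * gg p.2)), p.2) := rfl
theorem QQ_symm_apply (a : ℝ) (p : T2) :
    (QQ a)⁻¹ p = (p.1, p.2 * ee (-(a * (bb * gg p.1)))) := rfl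

theorem PP_zero : PP 0 = 1 := by
  ext p <;> simp [ee_zero]

theorem QQ_zero : QQ 0 = 1 := by
  ext p <;> simp [ee_zero]

noncomputable def FF : Equiv.Perm T2 := QQ 1 * PP 1

theorem FF_apply (p : T2) :
    FF p = (p.1 * ee (gg p.2), p.2 * ee (bb * gg (p.1 * ee (gg p.2)))) := by
  simp [FF]

/-! Smoothness of the shears, with parameter. -/

theorem contMDiff_PP : ContMDiff (𝓘(ℝ, ℝ).prod I2) I2 ∞ (fun q : ℝ × T2 => PP q.1 q.2) := by
  simp only [PP_apply]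
  have h1 : ContMDiff (𝓘(ℝ, ℝ).prod I2) (𝓡 1) ∞ (fun q : ℝ × T2 => q.2.1) :=
    contMDiff_fst.comp contMDiff_snd
  have h2 : ContMDiff (𝓘(ℝ, ℝ).prod I2) (𝓡 1) ∞ (fun q : ℝ × T2 => q.2.2) :=
    contMDiff_snd.comp contMDiff_snd
  have h3 : ContMDiff (𝓘(ℝ, ℝ).prod I2) 𝓘(ℝ, ℝ) ∞ (fun q : ℝ × T2 => q.1 * gg q.2.2) :=
    contMDiff_fst.mul (contMDiff_gg.comp h2)
  exact (h1.mul (contMDiff_ee.comp h3)).prodMk h2

theorem contMDiff_PP_inv :
    ContMDiff (𝓘(ℝ, ℝ).prod I2) I2 ∞ (fun q : ℝ × T2 => (PP q.1)⁻¹ q.2) := by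
  simp only [PP_symm_apply]
  have h1 : ContMDiff (𝓘(ℝ, ℝ).prod I2) (𝓡 1) ∞ (fun q : ℝ × T2 => q.2.1) :=
    contMDiff_fst.comp contMDiff_snd
  have h2 : ContMDiff (𝓘(ℝ, ℝ).prod I2) (𝓡 1) ∞ (fun q : ℝ × T2 => q.2.2) :=
    contMDiff_snd.comp contMDiff_snd
  have h3 : ContMDiff (𝓘(ℝ, ℝ).prod I2) 𝓘(ℝ, ℝ) ∞ (fun q : ℝ × T2 => -(q.1 * gg q.2.2)) :=
    (contMDiff_fst.mul (contMDiff_gg.comp h2)).neg
  exact (h1.mul (contMDiff_ee.comp h3)).prodMk h2

theorem contMDiff_QQ : ContMDiff (𝓘(ℝ, ℝ).prod I2) I2 ∞ (fun q : ℝ × T2 => QQ q.1 q.2) := by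
  simp only [QQ_apply]
  have h1 : ContMDiff (𝓘(ℝ, ℝ).prod I2) (𝓡 1) ∞ (fun q : ℝ × T2 => q.2.1) :=
    contMDiff_fst.comp contMDiff_snd
  have h2 : ContMDiff (𝓘(ℝ, ℝ).prod I2) (𝓡 1) ∞ (fun q : ℝ × T2 => q.2.2) :=
    contMDiff_snd.comp contMDiff_snd
  have h3 : ContMDiff (𝓘(ℝ, ℝ).prod I2) 𝓘(ℝ, ℝ) ∞ (fun q : ℝ × T2 => q.1 * (bb * gg q.2.1)) :=
    contMDiff_fst.mul (contMDiff_const.mul (contMDiff_gg.comp h1))
  exact h1.prodMk (h2.mul (contMDiff_ee.comp h3))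

theorem contMDiff_QQ_inv :
    ContMDiff (𝓘(ℝ, ℝ).prod I2) I2 ∞ (fun q : ℝ × T2 => (QQ q.1)⁻¹ q.2) := by
  simp only [QQ_symm_apply]
  have h1 : ContMDiff (𝓘(ℝ, ℝ).prod I2) (𝓡 1) ∞ (fun q : ℝ × T2 => q.2.1) :=
    contMDiff_fst.comp contMDiff_snd
  have h2 : ContMDiff (𝓘(ℝ, ℝ).prod I2) (𝓡 1) ∞ (fun q : ℝ × T2 => q.2.2) :=
    contMDiff_snd.comp contMDiff_snd
  have h3 : ContMDiff (𝓘(ℝ, ℝ).prod I2) 𝓘(ℝ, ℝ) ∞ (fun q : ℝ × T2 => -(q.1 * (bb * gg q.2.1))) :=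
    (contMDiff_fst.mul (contMDiff_const.mul (contMDiff_gg.comp h1))).neg
  exact h1.prodMk (h2.mul (contMDiff_ee.comp h3))

theorem contMDiff_one_mk : ContMDiff I2 (𝓘(ℝ, ℝ).prod I2) ∞ (fun p : T2 => ((1 : ℝ), p)) :=
  contMDiff_const.prodMk contMDiff_id

theorem contMDiff_FF : ContMDiff I2 I2 ∞ (fun p : T2 => FF p) := by
  have h1 : ContMDiff I2 I2 ∞ ((fun q : ℝ × T2 => PP q.1 q.2) ∘ fun p : T2 => ((1 : ℝ), p)) :=
    contMDiff_PP.comp contMDiff_one_mk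
  have h2 : ContMDiff I2 I2 ∞ ((fun q : ℝ × T2 => QQ q.1 q.2) ∘ fun p : T2 => ((1 : ℝ), p)) :=
    contMDiff_QQ.comp contMDiff_one_mk
  exact h2.comp h1

theorem contMDiff_FF_inv : ContMDiff I2 I2 ∞ (fun p : T2 => FF⁻¹ p) := by
  have h1 : ContMDiff I2 I2 ∞
      ((fun q : ℝ × T2 => (PP q.1)⁻¹ q.2) ∘ fun p : T2 => ((1 : ℝ), p)) :=
    contMDiff_PP_inv.comp contMDiff_one_mk
  have h2 : ContMDiff I2 I2 ∞
      ((fun q : ℝ × T2 => (QQ q.1)⁻¹ q.2) ∘ fun p : T2 => ((1 : ℝ), p)) :=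
    contMDiff_QQ_inv.comp contMDiff_one_mk
  have e : (fun p : T2 => FF⁻¹ p) = ((fun q : ℝ × T2 => (PP q.1)⁻¹ q.2) ∘
      fun p : T2 => ((1 : ℝ), p)) ∘ ((fun q : ℝ × T2 => (QQ q.1)⁻¹ q.2) ∘
      fun p : T2 => ((1 : ℝ), p)) := by
    funext p
    rw [FF, mul_inv_rev, Equiv.Perm.mul_apply]
    rfl
  rw [e]
  exact h1.comp h2

theorem contMDiff_FF_pow (n : ℕ) : ContMDiff I2 I2 ∞ (fun p : T2 => (FF ^ n) p) := by
  induction n with
  | zero => exact contMDiff_id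
  | succ n ih =>
    have : (fun p : T2 => (FF ^ (n + 1)) p) = fun p => FF ((FF ^ n) p) := by
      funext p; rw [pow_succ']; rfl
    rw [this]
    exact contMDiff_FF.comp ih

theorem contMDiff_FF_pow_inv (n : ℕ) : ContMDiff I2 I2 ∞ (fun p : T2 => (FF⁻¹ ^ n) p) := by
  induction n with
  | zero => exact contMDiff_id
  | succ n ih =>
    have : (fun p : T2 => (FF⁻¹ ^ (n + 1)) p) = fun p => FF⁻¹ ((FF⁻¹ ^ n) p) := by
      funext p; rw [pow_succ']; rfl
    rw [this]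
    exact contMDiff_FF_inv.comp ih

theorem contMDiff_FF_zpow (n : ℤ) : ContMDiff I2 I2 ∞ (fun p : T2 => (FF ^ n) p) := by
  rcases le_total 0 n with h | h
  · obtain ⟨m, rfl⟩ := Int.eq_ofNat_of_zero_le h
    have : (FF ^ (m : ℤ) : Equiv.Perm T2) = FF ^ m := zpow_natCast _ _
    rw [this]
    exact contMDiff_FF_pow m
  · obtain ⟨m, rfl⟩ := Int.exists_eq_neg_ofNat h
    have : (FF ^ (-(m : ℤ)) : Equiv.Perm T2) = FF⁻¹ ^ m := by
      rw [zpow_neg, zpow_natCast, inv_pow]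
    rw [this]
    exact contMDiff_FF_pow_inv m

theorem continuous_FF_zpow (n : ℤ) : Continuous (fun p : T2 => (FF ^ n) p) :=
  (contMDiff_FF_zpow n).continuous

end Pool.Agent.Q192.FL
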