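import Mathlib

/-!
A compatible metric on a compact metric space for which the pairs at distance at least one are
exactly the pairs of a given closed relation (and its transpose).
-/

namespace Pool.Agent.Q192.FL

open Set Topology

/-- A function `D` is a metric which induces the topology. -/
structure IsCompatibleMetric {M : Type*} [TopologicalSpace M] (D : M → M → ℝ) : Prop where
  self : ∀ x, D x x = 0
  eq_of_eq_zero : ∀ x y, D x y = 0 → x = y
  symm : ∀ x y, D x y = D y x
  triangle : ∀ x y z, D x z ≤ D x y + D y z
  isOpen_iff : ∀ s : Set M, IsOpen s ↔ ∀ x ∈ s, ∃ r > 0, ∀ y, D x y < r → y ∈ s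

section
variable {M : Type*} [MetricSpace M] [CompactSpace M]

/-- Distance of the pair to the relation and its transpose. -/
noncomputable def rd (R : Set (M × M)) (x y : M) : ℝ :=
  min (Metric.infDist (x, y) R) (Metric.infDist (y, x) R)

noncomputable def rf (R : Set (M × M)) (x y : M) : ℝ := max 0 (1 - rd R x y) / 2

noncomputable def relDist (R : Set (M × M)) (L : ℝ) (x y : M) : ℝ :=
  min (L * dist x y) (1 / 2 + rf R x y)

omit [CompactSpace M] in
theorem rd_symm (R : Set (M × M)) (x y : M) : rd R x y = rd R y x := min_comm _ _

omit [CompactSpace M] in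
theorem rd_nonneg (R : Set (M × M)) (x y : M) : 0 ≤ rd R x y :=
  le_min Metric.infDist_nonneg Metric.infDist_nonneg

omit [CompactSpace M] in
theorem rf_symm (R : Set (M × M)) (x y : M) : rf R x y = rf R y x := by
  unfold rf; rw [rd_symm]

omit [CompactSpace M] in
theorem rf_nonneg (R : Set (M × M)) (x y : M) : 0 ≤ rf R x y := by
  unfold rf; positivity

omit [CompactSpace M] in
theorem rf_le (R : Set (M × M)) (x y : M) : rf R x y ≤ 1 / 2 := by
  unfold rf
  have := rd_nonneg R x y
  have : max 0 (1 - rd R x y) ≤ 1 := max_le (by norm_num) (by linarith)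
  linarith

omit [CompactSpace M] in
theorem rd_le (R : Set (M × M)) (x y z : M) : rd R x y ≤ rd R z y + dist x z := by
  unfold rd
  have h1 : Metric.infDist (x, y) R ≤ Metric.infDist (z, y) R + dist x z := by
    have := Metric.infDist_le_infDist_add_dist (s := R) (x := (x, y)) (y := (z, y))
    have e : dist (x, y) (z, y) = dist x z := by simp [Prod.dist_eq]
    linarith
  have h2 : Metric.infDist (y, x) R ≤ Metric.infDist (y, z) R + dist x z := by
    have := Metric.infDist_le_infDist_add_dist (s := R) (x := (y, x)) (y := (y, z))
    have e : dist (y, x) (y, z) = dist x z := by simp [Prod.dist_eq]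
    linarith
  rcases le_total (Metric.infDist (z, y) R) (Metric.infDist (y, z) R) with h | h
  · rw [min_eq_left h]; exact (min_le_left _ _).trans h1
  · rw [min_eq_right h]; exact (min_le_right _ _).trans h2

omit [CompactSpace M] in
theorem rf_lip (R : Set (M × M)) (x y z : M) : rf R x y ≤ rf R z y + dist x z := by
  unfold rf
  have h := rd_le R z y x
  rw [dist_comm z x] at h
  have hd : 0 ≤ dist x z := dist_nonneg
  have : max 0 (1 - rd R x y) ≤ max 0 (1 - rd R z y) + dist x z := by
    apply max_le
    · have := le_max_left 0 (1 - rd R z y); linarith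
    · have := le_max_right 0 (1 - rd R z y); linarith
  linarith

theorem exists_delta (R : Set (M × M)) (hR : IsClosed R) (hd : ∀ p ∈ R, p.1 ≠ p.2) :
    ∃ δ > 0, ∀ p ∈ R, δ ≤ dist p.1 p.2 := by
  by_cases hne : R.Nonempty
  · obtain ⟨p, hp, hmin⟩ := hR.isCompact.exists_isMinOn hne
      (f := fun p : M × M => dist p.1 p.2) (by fun_prop)
    exact ⟨dist p.1 p.2, dist_pos.2 (hd p hp), fun q hq => hmin hq⟩
  · exact ⟨1, one_pos, fun p hp => (hne ⟨p, hp⟩).elim⟩

/-- **The metric of a relation.** -/
theorem exists_metric (R : Set (M × M)) (hR : IsClosed R) (hne : R.Nonempty)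
    (hd : ∀ p ∈ R, p.1 ≠ p.2) :
    ∃ D : M → M → ℝ, IsCompatibleMetric D ∧ (∀ x y, D x y ≤ 1) ∧
      Continuous (fun p : M × M => D p.1 p.2) ∧
      ∀ x y, 1 ≤ D x y ↔ ((x, y) ∈ R ∨ (y, x) ∈ R) := by
  obtain ⟨δ, hδ, hδR⟩ := exists_delta R hR hd
  set L : ℝ := max 1 (1 / δ) with hL
  have hL1 : 1 ≤ L := le_max_left _ _
  have hLδ : 1 ≤ L * δ := by
    have : 1 / δ ≤ L := le_max_right _ _
    calc (1 : ℝ) = 1 / δ * δ := by field_simp
      _ ≤ L * δ := by gcongr
  have hL0 : 0 < L := by linarith
  refine ⟨relDist R L, ⟨?_, ?_, ?_, ?_, ?_⟩, ?_, ?_, ?_⟩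
  · intro x
    unfold relDist
    have := rf_nonneg R x x
    rw [dist_self, mul_zero]
    exact min_eq_left (by linarith)
  · intro x y h
    unfold relDist at h
    have := rf_nonneg R x y
    rcases min_choice (L * dist x y) (1 / 2 + rf R x y) with h' | h'
    · rw [h'] at h
      have : dist x y = 0 := by
        rcases mul_eq_zero.1 h with h | h
        · linarith
        · exact h
      exact dist_eq_zero.1 this
    · rw [h'] at h; linarith
  · intro x y
    unfold relDist
    rw [dist_comm, rf_symm]
  · intro x y z
    unfold relDist
    have h0 := rf_nonneg R x y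
    have h0' := rf_nonneg R y z
    have h1 := rf_le R x z
    have hd1 : 0 ≤ dist x y := dist_nonneg
    have hd2 : 0 ≤ dist y z := dist_nonneg
    have htri := dist_triangle x y z
    have hLm : L * dist x z ≤ L * dist x y + L * dist y z := by nlinarith
    have ha : rf R x z ≤ rf R y z + dist x y := rf_lip R x z y
    have hb : rf R x z ≤ rf R x y + dist y z := by
      have := rf_lip R z x y
      rw [rf_symm R z x, rf_symm R y x, dist_comm z y] at this
      exact this
    have hd1' : dist x y ≤ L * dist x y := by nlinarith
    have hd2' : dist y z ≤ L * dist y z := by nlinarith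
    rcases min_choice (L * dist x y) (1 / 2 + rf R x y) with h | h <;>
    rcases min_choice (L * dist y z) (1 / 2 + rf R y z) with h' | h' <;> rw [h, h']
    · exact (min_le_left _ _).trans hLm
    · exact (min_le_right _ _).trans (by linarith)
    · exact (min_le_right _ _).trans (by linarith)
    · exact (min_le_right _ _).trans (by linarith)
  · intro s
    rw [Metric.isOpen_iff]
    constructor
    · intro h x hx
      obtain ⟨ε, hε, hs⟩ := h x hx
      refine ⟨min ε (1 / 2), by positivity, fun y hy => ?_⟩
      apply hs
      rw [Metric.mem_ball, dist_comm]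
      unfold relDist at hy
      have h0 := rf_nonneg R x y
      have : L * dist x y < min ε (1 / 2) := by
        by_contra hc
        push Not at hc
        have : min ε (1 / 2) ≤ min (L * dist x y) (1 / 2 + rf R x y) :=
          le_min hc ((min_le_right _ _).trans (by linarith))
        linarith
      have h2 := min_le_left ε (1 / 2 : ℝ)
      have hd1 : 0 ≤ dist x y := dist_nonneg
      nlinarith
    · intro h x hx
      obtain ⟨r, hr, hs⟩ := h x hx
      refine ⟨r / L, by positivity, fun y hy => ?_⟩
      apply hs
      rw [Metric.mem_ball, dist_comm, lt_div_iff₀ hL0] at hy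
      unfold relDist
      exact (min_le_left _ _).trans_lt (by linarith)
  · intro x y
    unfold relDist
    have := rf_le R x y
    exact (min_le_right _ _).trans (by linarith)
  · unfold relDist rf rd
    have c1 : Continuous fun p : M × M => Metric.infDist (p.1, p.2) R :=
      Metric.continuous_infDist_pt R |>.comp (by fun_prop)
    have c2 : Continuous fun p : M × M => Metric.infDist (p.2, p.1) R :=
      (Metric.continuous_infDist_pt R).comp (by fun_prop : Continuous fun p : M × M => (p.2, p.1))
    fun_prop
  · intro x y
    unfold relDist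
    constructor
    · intro h
      have h1 : 1 ≤ 1 / 2 + rf R x y := h.trans (min_le_right _ _)
      have h2 : rd R x y ≤ 0 := by
        by_contra hc
        push Not at hc
        have : rf R x y < 1 / 2 := by
          unfold rf
          have : max 0 (1 - rd R x y) < 1 := max_lt (by norm_num) (by linarith)
          linarith
        linarith
      have h3 : rd R x y = 0 := le_antisymm h2 (rd_nonneg R x y)
      unfold rd at h3
      rcases min_choice (Metric.infDist (x, y) R) (Metric.infDist (y, x) R) with h' | h'
      · left; rw [h'] at h3; exact (hR.mem_iff_infDist_zero hne).2 h3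
      · right; rw [h'] at h3; exact (hR.mem_iff_infDist_zero hne).2 h3
    · intro h
      have h1 : rd R x y = 0 := by
        unfold rd
        rcases h with h | h
        · rw [(hR.mem_iff_infDist_zero hne).1 h]
          exact min_eq_left Metric.infDist_nonneg
        · rw [(hR.mem_iff_infDist_zero hne).1 h]
          exact min_eq_right Metric.infDist_nonneg
      have h2 : δ ≤ dist x y := by
        rcases h with h | h
        · exact hδR _ h
        · rw [dist_comm]; exact hδR _ h
      apply le_min
      · calc (1 : ℝ) ≤ L * δ := hLδ
          _ ≤ L * dist x y := by gcongr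
      · unfold rf; rw [h1]; norm_num

end

end Pool.Agent.Q192.FL
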